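import Pool.Agent.ANG.Df

/-! # ANG: algebra of the Laplacian and of the carré du champ -/

set_option autoImplicit false

namespace ANG

variable {R : Type*} [Fintype R] {w : R → R → ℝ}

lemma Dl_add (w : R → R → ℝ) (X Z : R → ℝ) (c : R) :
    Dl w (fun d => X d + Z d) c = Dl w X c + Dl w Z c := by
  unfold Dl
  rw [← Finset.sum_add_distrib]
  exact Finset.sum_congr rfl (fun d _ => by ring)

lemma Dl_sub (w : R → R → ℝ) (X Z : R → ℝ) (c : R) :
    Dl w (fun d => X d - Z d) c = Dl w X c - Dl w Z c := by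
  unfold Dl
  rw [← Finset.sum_sub_distrib]
  exact Finset.sum_congr rfl (fun d _ => by ring)

lemma Dl_smul (w : R → R → ℝ) (a : ℝ) (X : R → ℝ) (c : R) :
    Dl w (fun d => a * X d) c = a * Dl w X c := by
  unfold Dl
  rw [Finset.mul_sum]
  exact Finset.sum_congr rfl (fun d _ => by ring)

lemma Dl_const (w : R → R → ℝ) (a : ℝ) (c : R) : Dl w (fun _ => a) c = 0 := by
  unfold Dl
  exact Finset.sum_eq_zero (fun d _ => by ring)

lemma Dl_sumf (w : R → R → ℝ) {ι : Type*} (s : Finset ι) (F : ι → R → ℝ) (c : R) :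
    Dl w (fun d => ∑ i ∈ s, F i d) c = ∑ i ∈ s, Dl w (F i) c := by
  unfold Dl
  rw [Finset.sum_comm]
  apply Finset.sum_congr rfl
  intro d _
  rw [← Finset.sum_sub_distrib, Finset.mul_sum]

lemma sum_Dl (hw : ∀ c d, w c d = w d c) (X : R → ℝ) : ∑ c, Dl w X c = 0 := by
  have h1 : ∑ c, Dl w X c = ∑ c, ∑ d, w c d * (X c - X d) := rfl
  have h2 : ∑ c, ∑ d, w c d * (X c - X d) = ∑ c, ∑ d, w c d * (X d - X c) := by
    rw [Finset.sum_comm]
    exact Finset.sum_congr rfl (fun c _ => Finset.sum_congr rfl (fun d _ => by rw [hw d c]))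
  have h3 : ∑ c, ∑ d, w c d * (X d - X c) = - ∑ c, ∑ d, w c d * (X c - X d) := by
    rw [← Finset.sum_neg_distrib]
    apply Finset.sum_congr rfl
    intro c _
    rw [← Finset.sum_neg_distrib]
    exact Finset.sum_congr rfl (fun d _ => by ring)
  rw [h1]
  linarith

lemma two_Gm (w : R → R → ℝ) (X Z : R → ℝ) (c : R) :
    2 * Gm w X Z c = X c * Dl w Z c + Z c * Dl w X c - Dl w (fun d => X d * Z d) c := by
  unfold Gm Dl
  rw [← mul_assoc, Finset.mul_sum, Finset.mul_sum, Finset.mul_sum, ← Finset.sum_add_distrib,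
    ← Finset.sum_sub_distrib]
  exact Finset.sum_congr rfl (fun d _ => by ring)

lemma Dl_adj (hw : ∀ c d, w c d = w d c) (X F : R → ℝ) :
    ∑ c, Dl w X c * F c = ∑ c, X c * Dl w F c := by
  have h1 : ∀ c, Dl w X c * F c = X c * Dl w F c + ∑ d, (w c d * (X c * F d) - w c d * (X d * F c)) := by
    intro c
    unfold Dl
    rw [Finset.sum_mul, Finset.mul_sum, ← Finset.sum_add_distrib]
    exact Finset.sum_congr rfl (fun d _ => by ring)
  rw [Finset.sum_congr rfl (fun c _ => h1 c), Finset.sum_add_distrib]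
  have h2 : ∑ c, ∑ d, (w c d * (X c * F d) - w c d * (X d * F c)) = 0 := by
    have h3 : ∑ c, ∑ d, (w c d * (X c * F d) - w c d * (X d * F c))
        = ∑ c, ∑ d, w c d * (X c * F d) - ∑ c, ∑ d, w c d * (X d * F c) := by
      rw [← Finset.sum_sub_distrib]
      exact Finset.sum_congr rfl (fun c _ => by rw [Finset.sum_sub_distrib])
    rw [h3, Finset.sum_comm]
    have h4 : ∑ y, ∑ x, w x y * (X x * F y) = ∑ c, ∑ d, w c d * (X d * F c) :=
      Finset.sum_congr rfl (fun c _ => Finset.sum_congr rfl (fun d _ => by rw [hw d c]))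
    rw [h4]
    ring
  rw [h2, add_zero]

lemma Gm_symm (w : R → R → ℝ) (X Z : R → ℝ) (c : R) : Gm w X Z c = Gm w Z X c := by
  unfold Gm
  congr 1
  exact Finset.sum_congr rfl (fun d _ => by ring)

lemma Gm_nonneg (hw : ∀ c d, 0 ≤ w c d) (X : R → ℝ) (c : R) : 0 ≤ Gm w X X c := by
  unfold Gm
  apply mul_nonneg (by norm_num)
  exact Finset.sum_nonneg (fun d _ => mul_nonneg (hw c d) (mul_self_nonneg _))

lemma Gm_sub_smul (w : R → R → ℝ) (X Y : R → ℝ) (r : ℝ) (c : R) :
    Gm w (fun d => Y d - r * X d) (fun d => Y d - r * X d) c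
      = Gm w Y Y c - 2 * r * Gm w X Y c + r ^ 2 * Gm w X X c := by
  unfold Gm
  have h : ∀ d, w c d * (((Y d - r * X d) - (Y c - r * X c)) * ((Y d - r * X d) - (Y c - r * X c)))
      = w c d * ((Y d - Y c) * (Y d - Y c)) - 2 * r * (w c d * ((X d - X c) * (Y d - Y c)))
        + r ^ 2 * (w c d * ((X d - X c) * (X d - X c))) := fun d => by ring
  rw [Finset.sum_congr rfl (fun d _ => h d), Finset.sum_add_distrib, Finset.sum_sub_distrib,
    ← Finset.mul_sum, ← Finset.mul_sum]
  ring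

section single
open Classical

lemma sum_single_mul (x : R) (F : R → ℝ) :
    ∑ e, (Pi.single x (1 : ℝ) : R → ℝ) e * F e = F x := by
  rw [Finset.sum_eq_single x]
  · simp
  · intro b _ hb
    rw [Pi.single_eq_of_ne hb, zero_mul]
  · intro h
    exact absurd (Finset.mem_univ x) h

lemma eq_sum_single (X : R → ℝ) (e : R) :
    X e = ∑ x, X x * (Pi.single x (1 : ℝ) : R → ℝ) e := by
  rw [Finset.sum_eq_single e]
  · simp
  · intro b _ hb
    rw [Pi.single_eq_of_ne (Ne.symm hb), mul_zero]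
  · intro h
    exact absurd (Finset.mem_univ e) h

lemma sum_Dl_single (hw : ∀ c d, w c d = w d c) (c : R) (F : R → ℝ) :
    ∑ e, Dl w (Pi.single c 1) e * F e = Dl w F c := by
  rw [Dl_adj hw, sum_single_mul]

lemma Dl_eq_sum (w : R → R → ℝ) (X : R → ℝ) (e : R) :
    Dl w X e = ∑ x, X x * Dl w (Pi.single x 1) e := by
  have h1 : X = fun d => ∑ x, X x * (Pi.single x (1 : ℝ) : R → ℝ) d := funext (eq_sum_single X)
  conv_lhs => rw [h1]
  rw [Dl_sumf]
  exact Finset.sum_congr rfl (fun x _ => Dl_smul w (X x) _ e)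

lemma Gm_add_left (w : R → R → ℝ) (X X' Z : R → ℝ) (c : R) :
    Gm w (fun d => X d + X' d) Z c = Gm w X Z c + Gm w X' Z c := by
  unfold Gm
  rw [← mul_add, ← Finset.sum_add_distrib]
  congr 1
  exact Finset.sum_congr rfl (fun d _ => by ring)

lemma Gm_sumf_left (w : R → R → ℝ) {ι : Type*} (s : Finset ι) (F : ι → R → ℝ) (Z : R → ℝ) (c : R) :
    Gm w (fun d => ∑ i ∈ s, F i d) Z c = ∑ i ∈ s, Gm w (F i) Z c := by
  unfold Gm
  rw [← Finset.mul_sum]
  congr 1
  rw [Finset.sum_comm]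
  apply Finset.sum_congr rfl
  intro d _
  rw [← Finset.sum_sub_distrib, Finset.sum_mul, Finset.mul_sum]

lemma Gm_smul_left (w : R → R → ℝ) (a : ℝ) (X Z : R → ℝ) (c : R) :
    Gm w (fun d => a * X d) Z c = a * Gm w X Z c := by
  unfold Gm
  rw [Finset.mul_sum, Finset.mul_sum, Finset.mul_sum]
  exact Finset.sum_congr rfl (fun d _ => by ring)

lemma Gm_eq_sum_left (w : R → R → ℝ) (X Z : R → ℝ) (e : R) :
    Gm w X Z e = ∑ x, X x * Gm w (Pi.single x 1) Z e := by
  have h1 : X = fun d => ∑ x, X x * (Pi.single x (1 : ℝ) : R → ℝ) d := funext (eq_sum_single X)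
  conv_lhs => rw [h1]
  rw [Gm_sumf_left]
  exact Finset.sum_congr rfl (fun x _ => Gm_smul_left w (X x) _ Z e)

lemma Gm_eq_sum (w : R → R → ℝ) (X Z : R → ℝ) (e : R) :
    Gm w X Z e = ∑ x, ∑ y, Gm w (Pi.single x 1) (Pi.single y 1) e * (X x * Z y) := by
  rw [Gm_eq_sum_left]
  apply Finset.sum_congr rfl
  intro x _
  rw [Gm_symm, Gm_eq_sum_left, Finset.mul_sum]
  apply Finset.sum_congr rfl
  intro y _
  rw [Gm_symm w (Pi.single y 1)]
  ring

lemma sum_Gm_single (hw : ∀ c d, w c d = w d c) (c : R) (X F : R → ℝ) :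
    ∑ e, Gm w (Pi.single c 1) X e * F e
      = 1 / 2 * (∑ e, w c e * ((X c - X e) * F e) + Dl w X c * F c) := by
  have h1 : ∀ e, Gm w (Pi.single c 1) X e * F e
      = 1 / 2 * ((∑ d, (Pi.single c (1:ℝ) : R → ℝ) d * (w e d * ((X d - X e) * F e)))
        - (Pi.single c (1:ℝ) : R → ℝ) e * (∑ d, w e d * ((X d - X e) * F e))) := by
    intro e
    unfold Gm
    rw [Finset.mul_sum, Finset.sum_mul, Finset.mul_sum, ← Finset.sum_sub_distrib, Finset.mul_sum]
    exact Finset.sum_congr rfl (fun d _ => by ring)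
  rw [Finset.sum_congr rfl (fun e _ => h1 e), ← Finset.mul_sum, Finset.sum_sub_distrib]
  congr 1
  have h2 : ∑ e, (Pi.single c (1:ℝ) : R → ℝ) e * (∑ d, w e d * ((X d - X e) * F e))
      = - (Dl w X c * F c) := by
    rw [sum_single_mul]
    unfold Dl
    rw [Finset.sum_mul, ← Finset.sum_neg_distrib]
    exact Finset.sum_congr rfl (fun d _ => by ring)
  rw [h2, sub_neg_eq_add]
  congr 1
  apply Finset.sum_congr rfl
  intro e _
  rw [sum_single_mul c (fun d => w e d * ((X d - X e) * F e)), hw e c]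

/-- the derivative of the potential -/
lemma Psi_single (hw : ∀ c d, w c d = w d c) (r : ℝ) (c : R) (X : R → ℝ) :
    Psi w r (Pi.single c 1) X X
      = 2 * Dl w (fun e => Dl w X e ^ 2) c
        - r * (Dl w (fun e => Gm w X X e) c - 2 * Gm w X (Dl w X) c + 2 * Dl w X c ^ 2) := by
  have h1 : ∑ e, Dl w (Pi.single c 1) e * Dl w X e * Dl w X e = Dl w (fun e => Dl w X e ^ 2) c := by
    rw [← sum_Dl_single hw c (fun e => Dl w X e ^ 2)]
    exact Finset.sum_congr rfl (fun e _ => by ring)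
  have h2 : ∑ e, (Gm w (Pi.single c 1) X e * Dl w X e + Gm w X X e * Dl w (Pi.single c 1) e
      + Gm w (Pi.single c 1) X e * Dl w X e)
      = 2 * ∑ e, Gm w (Pi.single c 1) X e * Dl w X e + Dl w (fun e => Gm w X X e) c := by
    rw [← sum_Dl_single hw c (fun e => Gm w X X e), Finset.mul_sum, ← Finset.sum_add_distrib]
    exact Finset.sum_congr rfl (fun e _ => by ring)
  have h3 : ∑ e, w c e * ((X c - X e) * Dl w X e) = Dl w X c ^ 2 - 2 * Gm w X (Dl w X) c := by
    have h4 : Dl w X c ^ 2 = ∑ e, w c e * ((X c - X e) * Dl w X c) := by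
      rw [sq]
      nth_rewrite 1 [Dl]
      rw [Finset.sum_mul]
      exact Finset.sum_congr rfl (fun e _ => by ring)
    rw [h4]
    unfold Gm
    rw [← mul_assoc, Finset.mul_sum, ← Finset.sum_sub_distrib]
    exact Finset.sum_congr rfl (fun e _ => by ring)
  unfold Psi
  rw [h1, h2, sum_Gm_single hw, h3]
  ring

lemma Q_sg (w : R → R → ℝ) (r : ℝ) (c : R) (X Z : R → ℝ) :
    Q (sg w r) c X Z = Psi w r (Pi.single c 1) X Z := by
  have hD : ∀ (X : R → ℝ) e, Dl w X e = ∑ x, X x * Dl w (Pi.single x 1) e := Dl_eq_sum w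
  have e1 : ∀ e, Dl w (Pi.single c 1) e * Dl w X e * Dl w Z e
      = ∑ x, ∑ y, (X x * Z y) * (Dl w (Pi.single c 1) e * Dl w (Pi.single x 1) e
        * Dl w (Pi.single y 1) e) := by
    intro e
    rw [mul_assoc, hD X e, hD Z e, Finset.sum_mul, Finset.mul_sum]
    apply Finset.sum_congr rfl
    intro x _
    rw [Finset.mul_sum, Finset.mul_sum]
    exact Finset.sum_congr rfl (fun y _ => by ring)
  have e2 : ∀ e, Gm w (Pi.single c 1) X e * Dl w Z e
      = ∑ x, ∑ y, (X x * Z y) * (Gm w (Pi.single c 1) (Pi.single x 1) e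
        * Dl w (Pi.single y 1) e) := by
    intro e
    rw [Gm_symm, Gm_eq_sum_left, hD Z e, Finset.sum_mul]
    apply Finset.sum_congr rfl
    intro x _
    rw [Finset.mul_sum]
    apply Finset.sum_congr rfl
    intro y _
    rw [Gm_symm w (Pi.single x 1)]
    ring
  have e3 : ∀ e, Gm w X Z e * Dl w (Pi.single c 1) e
      = ∑ x, ∑ y, (X x * Z y) * (Gm w (Pi.single x 1) (Pi.single y 1) e
        * Dl w (Pi.single c 1) e) := by
    intro e
    rw [Gm_eq_sum w X Z e, Finset.sum_mul]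
    apply Finset.sum_congr rfl
    intro x _
    rw [Finset.sum_mul]
    exact Finset.sum_congr rfl (fun y _ => by ring)
  have e4 : ∀ e, Gm w (Pi.single c 1) Z e * Dl w X e
      = ∑ x, ∑ y, (X x * Z y) * (Gm w (Pi.single c 1) (Pi.single y 1) e
        * Dl w (Pi.single x 1) e) := by
    intro e
    rw [Gm_symm, Gm_eq_sum_left, hD X e, Finset.mul_sum]
    apply Finset.sum_congr rfl
    intro x _
    rw [Finset.sum_mul]
    apply Finset.sum_congr rfl
    intro y _
    rw [Gm_symm w (Pi.single y 1)]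
    ring
  have swap : ∀ f : R → R → R → ℝ, ∑ e, ∑ x, ∑ y, f e x y = ∑ x, ∑ y, ∑ e, f e x y := by
    intro f
    rw [Finset.sum_comm]
    exact Finset.sum_congr rfl (fun x _ => Finset.sum_comm)
  unfold Q sg Psi
  have f1 : ∑ e, Dl w (Pi.single c 1) e * Dl w X e * Dl w Z e
      = ∑ x, ∑ y, (X x * Z y) * ∑ e, (Dl w (Pi.single c 1) e * Dl w (Pi.single x 1) e
        * Dl w (Pi.single y 1) e) := by
    rw [Finset.sum_congr rfl (fun e _ => e1 e), swap]
    exact Finset.sum_congr rfl (fun x _ => Finset.sum_congr rfl (fun y _ => by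
      rw [Finset.mul_sum]))
  have f2 : ∑ e, (Gm w (Pi.single c 1) X e * Dl w Z e + Gm w X Z e * Dl w (Pi.single c 1) e
      + Gm w (Pi.single c 1) Z e * Dl w X e)
      = ∑ x, ∑ y, (X x * Z y) * ∑ e, (Gm w (Pi.single c 1) (Pi.single x 1) e
        * Dl w (Pi.single y 1) e + Gm w (Pi.single x 1) (Pi.single y 1) e
        * Dl w (Pi.single c 1) e + Gm w (Pi.single c 1) (Pi.single y 1) e
        * Dl w (Pi.single x 1) e) := by
    have f3 : ∀ e, Gm w (Pi.single c 1) X e * Dl w Z e + Gm w X Z e * Dl w (Pi.single c 1) e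
      + Gm w (Pi.single c 1) Z e * Dl w X e = ∑ x, ∑ y, (X x * Z y) *
        (Gm w (Pi.single c 1) (Pi.single x 1) e
        * Dl w (Pi.single y 1) e + Gm w (Pi.single x 1) (Pi.single y 1) e
        * Dl w (Pi.single c 1) e + Gm w (Pi.single c 1) (Pi.single y 1) e
        * Dl w (Pi.single x 1) e) := by
      intro e
      rw [e2 e, e3 e, e4 e, ← Finset.sum_add_distrib, ← Finset.sum_add_distrib]
      apply Finset.sum_congr rfl
      intro x _
      rw [← Finset.sum_add_distrib, ← Finset.sum_add_distrib]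
      exact Finset.sum_congr rfl (fun y _ => by ring)
    rw [Finset.sum_congr rfl (fun e _ => f3 e), swap]
    exact Finset.sum_congr rfl (fun x _ => Finset.sum_congr rfl (fun y _ => by
      rw [Finset.mul_sum]))
  rw [f1, f2, Finset.mul_sum, Finset.mul_sum, ← Finset.sum_sub_distrib]
  apply Finset.sum_congr rfl
  intro x _
  rw [Finset.mul_sum, Finset.mul_sum, ← Finset.sum_sub_distrib]
  exact Finset.sum_congr rfl (fun y _ => by ring)

end single

end ANG
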