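import Pool.Agent.ANG.Loc

/-! # ANG: chamber systems -/

set_option autoImplicit false

namespace ANG

variable {G V I : Type*} [Group G] [MulAction G V]

/-- a system of invariant equivalence relations with finite classes -/
structure Ch (G : Type*) {V I : Type*} [Group G] [MulAction G V] (rel : I → V → V → Prop) :
    Prop where
  eqv : ∀ i, Equivalence (rel i)
  inv : ∀ (i : I) (g : G) (c d : V), rel i c d → rel i (g • c) (g • d)
  fin : ∀ (i : I) (c : V), {d | rel i c d}.Finite

variable {rel : I → V → V → Prop}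

open Classical in
/-- the averaging kernel of the relation `rel i` -/
noncomputable def P (rel : I → V → V → Prop) (i : I) (c d : V) : ℝ :=
  if rel i c d then (({e | rel i c e}.ncard : ℝ))⁻¹ else 0

lemma rel_smul_iff (hC : Ch G rel) (i : I) (g : G) (c d : V) :
    rel i (g • c) (g • d) ↔ rel i c d := by
  constructor
  · intro h
    have := hC.inv i g⁻¹ _ _ h
    simpa using this
  · exact hC.inv i g c d

lemma class_eq (hC : Ch G rel) {i : I} {c d : V} (h : rel i c d) :
    {e | rel i c e} = {e | rel i d e} := by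
  ext e
  exact ⟨fun h' => (hC.eqv i).trans ((hC.eqv i).symm h) h', fun h' => (hC.eqv i).trans h h'⟩

lemma class_ncard_pos (hC : Ch G rel) (i : I) (c : V) : 0 < ({e | rel i c e}.ncard : ℝ) := by
  have h : 0 < {e | rel i c e}.ncard :=
    (Set.ncard_pos (hC.fin i c)).2 ⟨c, (hC.eqv i).refl c⟩
  exact_mod_cast h

lemma P_nonneg (rel : I → V → V → Prop) (i : I) (c d : V) : 0 ≤ P rel i c d := by
  unfold P
  split_ifs
  · exact inv_nonneg.2 (Nat.cast_nonneg _)
  · exact le_rfl

lemma P_of_rel {i : I} {c d : V} (h : rel i c d) :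
    P rel i c d = (({e | rel i c e}.ncard : ℝ))⁻¹ := by
  unfold P
  rw [if_pos h]

lemma P_of_not {i : I} {c d : V} (h : ¬ rel i c d) : P rel i c d = 0 := by
  unfold P
  rw [if_neg h]

lemma rel_of_P {i : I} {c d : V} (h : P rel i c d ≠ 0) : rel i c d := by
  by_contra hn
  exact h (P_of_not hn)

lemma P_symm (hC : Ch G rel) (i : I) (c d : V) : P rel i c d = P rel i d c := by
  by_cases h : rel i c d
  · rw [P_of_rel h, P_of_rel ((hC.eqv i).symm h), class_eq hC h]
  · rw [P_of_not h, P_of_not (fun h' => h ((hC.eqv i).symm h'))]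

lemma P_trans (hC : Ch G rel) {i : I} {c d : V} (h : rel i c d) (e : V) :
    P rel i c e = P rel i d e := by
  by_cases h' : rel i c e
  · rw [P_of_rel h', P_of_rel ((hC.eqv i).trans ((hC.eqv i).symm h) h'), class_eq hC h]
  · rw [P_of_not h', P_of_not (fun h'' => h' ((hC.eqv i).trans h h''))]

lemma P_smul (hC : Ch G rel) (i : I) (g : G) (c d : V) :
    P rel i (g • c) (g • d) = P rel i c d := by
  have h1 : {e | rel i (g • c) e}.ncard = {e | rel i c e}.ncard := by
    have h2 : {e | rel i (g • c) e} = (fun e => g • e) '' {e | rel i c e} := by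
      ext e
      simp only [Set.mem_setOf_eq, Set.mem_image]
      constructor
      · intro h
        refine ⟨g⁻¹ • e, ?_, by simp⟩
        have := hC.inv i g⁻¹ _ _ h
        simpa using this
      · rintro ⟨e', he', rfl⟩
        exact hC.inv i g _ _ he'
    rw [h2, Set.ncard_image_of_injective _ (MulAction.injective g)]
  by_cases h : rel i c d
  · rw [P_of_rel h, P_of_rel (hC.inv i g c d h), h1]
  · rw [P_of_not h, P_of_not (fun h' => h ((rel_smul_iff hC i g c d).1 h'))]

lemma P_sum (hC : Ch G rel) (i : I) (c : V) (S : Finset V) (hS : ∀ d, rel i c d → d ∈ S) :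
    ∑ d ∈ S, P rel i c d = 1 := by
  classical
  have h1 : ∑ d ∈ S, P rel i c d = ∑ d ∈ (hC.fin i c).toFinset, P rel i c d := by
    symm
    apply Finset.sum_subset
    · intro d hd
      exact hS d ((Set.Finite.mem_toFinset _).1 hd)
    · intro d _ hd
      apply P_of_not
      intro h
      exact hd ((Set.Finite.mem_toFinset _).2 h)
  rw [h1]
  have h2 : ∀ d ∈ (hC.fin i c).toFinset, P rel i c d = (({e | rel i c e}.ncard : ℝ))⁻¹ := by
    intro d hd
    exact P_of_rel ((Set.Finite.mem_toFinset _).1 hd)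
  rw [Finset.sum_congr rfl h2, Finset.sum_const, nsmul_eq_mul,
    ← Set.ncard_eq_toFinset_card _ (hC.fin i c)]
  exact mul_inv_cancel₀ (class_ncard_pos hC i c).ne'

/-- the residue relation generated by the `rel i` with `b i ≠ 0` -/
def Rs (rel : I → V → V → Prop) (b : I → ℝ) (c d : V) : Prop :=
  Relation.ReflTransGen (fun a e => ∃ i, b i ≠ 0 ∧ rel i a e) c d

lemma Rs_refl (rel : I → V → V → Prop) (b : I → ℝ) (c : V) : Rs rel b c c :=
  Relation.ReflTransGen.refl

lemma Rs_trans {b : I → ℝ} {c d e : V} (h : Rs rel b c d) (h' : Rs rel b d e) : Rs rel b c e :=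
  Relation.ReflTransGen.trans h h'

lemma Rs_symm (hC : Ch G rel) {b : I → ℝ} {c d : V} (h : Rs rel b c d) : Rs rel b d c := by
  unfold Rs at *
  induction h with
  | refl => exact Relation.ReflTransGen.refl
  | tail _ hbc ih =>
    obtain ⟨i, hi, hr⟩ := hbc
    exact (Relation.ReflTransGen.single ⟨i, hi, (hC.eqv i).symm hr⟩).trans ih

lemma Rs_of_rel {b : I → ℝ} {i : I} (hi : b i ≠ 0) {c d : V} (h : rel i c d) : Rs rel b c d :=
  Relation.ReflTransGen.single ⟨i, hi, h⟩

lemma Rs_smul (hC : Ch G rel) {b : I → ℝ} (g : G) {c d : V} (h : Rs rel b c d) :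
    Rs rel b (g • c) (g • d) := by
  unfold Rs at *
  induction h with
  | refl => exact Relation.ReflTransGen.refl
  | tail _ hbc ih =>
    obtain ⟨i, hi, hr⟩ := hbc
    exact ih.tail ⟨i, hi, hC.inv i g _ _ hr⟩

lemma Rs_smul_iff (hC : Ch G rel) {b : I → ℝ} (g : G) {c d : V} :
    Rs rel b (g • c) (g • d) ↔ Rs rel b c d := by
  constructor
  · intro h
    have := Rs_smul hC g⁻¹ h
    simpa using this
  · exact Rs_smul hC g

/-- the weights of the Laplacian `∑ b i (1 - P i)` -/
noncomputable def W [Fintype I] (rel : I → V → V → Prop) (b : I → ℝ) (c d : V) : ℝ :=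
  ∑ i, b i * P rel i c d

section weights
variable [Fintype I]

lemma W_nonneg (rel : I → V → V → Prop) {b : I → ℝ} (hb : ∀ i, 0 ≤ b i) (c d : V) :
    0 ≤ W rel b c d :=
  Finset.sum_nonneg (fun i _ => mul_nonneg (hb i) (P_nonneg rel i c d))

lemma W_symm (hC : Ch G rel) (b : I → ℝ) (c d : V) : W rel b c d = W rel b d c :=
  Finset.sum_congr rfl (fun i _ => by rw [P_symm hC])

lemma W_smul (hC : Ch G rel) (b : I → ℝ) (g : G) (c d : V) :
    W rel b (g • c) (g • d) = W rel b c d :=
  Finset.sum_congr rfl (fun i _ => by rw [P_smul hC])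

lemma W_fin (hC : Ch G rel) (b : I → ℝ) (c : V) : {d | W rel b c d ≠ 0}.Finite := by
  apply (Set.finite_iUnion (fun i => hC.fin i c)).subset
  intro d hd
  simp only [Set.mem_setOf_eq] at hd
  obtain ⟨i, _, hi⟩ := Finset.exists_ne_zero_of_sum_ne_zero hd
  exact Set.mem_iUnion.2 ⟨i, rel_of_P (right_ne_zero_of_mul hi)⟩

lemma W_ne_zero {b : I → ℝ} (hb : ∀ i, 0 < b i) (hC : Ch G rel) {c d : V} {i : I}
    (h : rel i c d) : W rel b c d ≠ 0 := by
  have h1 : 0 < b i * P rel i c d := by
    rw [P_of_rel h]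
    exact mul_pos (hb i) (inv_pos.2 (class_ncard_pos hC i c))
  have h2 : b i * P rel i c d ≤ W rel b c d :=
    Finset.single_le_sum (f := fun i => b i * P rel i c d)
      (fun i _ => mul_nonneg (hb i).le (P_nonneg rel i c d)) (Finset.mem_univ i)
  exact (lt_of_lt_of_le h1 h2).ne'

end weights

end ANG
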