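import Mathlib

/-! # ANG: the cubic Poincaré inequality on finite weighted graphs, definitions -/

set_option autoImplicit false

namespace ANG

variable {R : Type*} [Fintype R]

/-- the Laplacian of the weights `w` -/
noncomputable def Dl (w : R → R → ℝ) (X : R → ℝ) (c : R) : ℝ := ∑ d, w c d * (X c - X d)

/-- carré du champ -/
noncomputable def Gm (w : R → R → ℝ) (X Z : R → ℝ) (c : R) : ℝ :=
  1 / 2 * ∑ d, w c d * ((X d - X c) * (Z d - Z c))

/-- the quadratic form at `c` of a tensor -/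
noncomputable def Q (t : R → R → R → ℝ) (c : R) (X Z : R → ℝ) : ℝ :=
  ∑ x, ∑ y, t c x y * (X x * Z y)

/-- totally symmetric tensors with vanishing marginals -/
structure S0 (t : R → R → R → ℝ) : Prop where
  s12 : ∀ c x y, t c x y = t x c y
  s23 : ∀ c x y, t c x y = t c y x
  mg : ∀ c x, ∑ y, t c x y = 0

/-- the operator `Δ₁ + Δ₂ + Δ₃ - 2r` on tensors -/
noncomputable def K (w : R → R → ℝ) (r : ℝ) (t : R → R → R → ℝ) (c x y : R) : ℝ :=
  Dl w (fun d => t d x y) c + Dl w (fun d => t c d y) x + Dl w (fun d => t c x d) y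
    - 2 * r * t c x y

/-- the trilinear form of the potential -/
noncomputable def Psi (w : R → R → ℝ) (r : ℝ) (X Z W : R → ℝ) : ℝ :=
  2 * ∑ e, Dl w X e * Dl w Z e * Dl w W e
    - r * ∑ e, (Gm w X Z e * Dl w W e + Gm w Z W e * Dl w X e + Gm w X W e * Dl w Z e)

open Classical in
/-- the tensor of the potential -/
noncomputable def sg (w : R → R → ℝ) (r : ℝ) (c x y : R) : ℝ :=
  Psi w r (Pi.single c 1) (Pi.single x 1) (Pi.single y 1)

open Classical in
/-- the canonical potential: the solution of `K θ = - σ` -/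
noncomputable def th (w : R → R → ℝ) (r : ℝ) : R → R → R → ℝ :=
  if h : ∃ t : R → R → R → ℝ, S0 t ∧ ∀ c x y, K w r t c x y = - sg w r c x y then h.choose else 0

/-- spectral gap -/
def Gap (w : R → R → ℝ) (lam : ℝ) : Prop :=
  ∀ X : R → ℝ, ∑ c, X c = 0 → lam * ∑ c, X c ^ 2 ≤ ∑ c, X c * Dl w X c

end ANG
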