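import Pool.Agent.ANG.Mp

/-! # ANG: existence, uniqueness and positivity of the canonical potential -/

set_option autoImplicit false

namespace ANG

variable {R : Type*} [Fintype R] {w : R → R → ℝ}

/-- the space of totally symmetric tensors with vanishing marginals -/
def V0 (R : Type*) [Fintype R] : Submodule ℝ (R → R → R → ℝ) where
  carrier := {t | S0 t}
  zero_mem' := ⟨fun _ _ _ => rfl, fun _ _ _ => rfl, fun _ _ => by simp⟩
  add_mem' := by
    intro a b ha hb
    refine ⟨?_, ?_, ?_⟩
    · intro c x y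
      show a c x y + b c x y = a x c y + b x c y
      rw [ha.s12, hb.s12]
    · intro c x y
      show a c x y + b c x y = a c y x + b c y x
      rw [ha.s23, hb.s23]
    · intro c x
      show ∑ y, (a c x y + b c x y) = 0
      rw [Finset.sum_add_distrib, ha.mg, hb.mg, add_zero]
  smul_mem' := by
    intro s a ha
    refine ⟨?_, ?_, ?_⟩
    · intro c x y
      show s * a c x y = s * a x c y
      rw [ha.s12]
    · intro c x y
      show s * a c x y = s * a c y x
      rw [ha.s23]
    · intro c x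
      show ∑ y, s * a c x y = 0
      rw [← Finset.mul_sum, ha.mg, mul_zero]

lemma S0.mg1 {t : R → R → R → ℝ} (ht : S0 t) (x y : R) : ∑ c, t c x y = 0 := by
  have h : ∀ c, t c x y = t y x c := by
    intro c
    rw [ht.s12 c x y, ht.s23 x c y, ht.s12 x y c]
  rw [Finset.sum_congr rfl (fun c _ => h c)]
  exact ht.mg y x

lemma S0.mg2 {t : R → R → R → ℝ} (ht : S0 t) (c y : R) : ∑ x, t c x y = 0 := by
  rw [Finset.sum_congr rfl (fun x _ => ht.s23 c x y)]
  exact ht.mg c y

lemma K_s0 (hws : ∀ c d, w c d = w d c) (r : ℝ) {t : R → R → R → ℝ} (ht : S0 t) :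
    S0 (K w r t) := by
  refine ⟨?_, ?_, ?_⟩
  · intro c x y
    unfold K
    have e1 : (fun d => t d x y) = fun d => t x d y := funext (fun d => ht.s12 d x y)
    have e2 : (fun d => t c d y) = fun d => t d c y := funext (fun d => ht.s12 c d y)
    have e3 : (fun d => t c x d) = fun d => t x c d := funext (fun d => ht.s12 c x d)
    rw [e1, e2, e3, ht.s12 c x y]
    ring
  · intro c x y
    unfold K
    have e1 : (fun d => t d x y) = fun d => t d y x := funext (fun d => ht.s23 d x y)
    have e2 : (fun d => t c d y) = fun d => t c y d := funext (fun d => ht.s23 c d y)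
    have e3 : (fun d => t c x d) = fun d => t c d x := funext (fun d => ht.s23 c x d)
    rw [e1, e2, e3, ht.s23 c x y]
    ring
  · intro c x
    unfold K
    rw [Finset.sum_sub_distrib, Finset.sum_add_distrib, Finset.sum_add_distrib, ← Finset.mul_sum,
      ht.mg, mul_zero, sub_zero, sum_Dl hws, add_zero,
      ← Dl_sumf w Finset.univ (fun y d => t d x y) c, ← Dl_sumf w Finset.univ (fun y d => t c d y) x]
    have e1 : (fun d => ∑ i, t d x i) = fun _ => 0 := funext (fun d => ht.mg d x)
    have e2 : (fun d => ∑ i, t c d i) = fun _ => 0 := funext (fun d => ht.mg c d)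
    rw [e1, e2, Dl_const, Dl_const, add_zero]

/-- `K` as a linear map on `V0` -/
noncomputable def KL (hws : ∀ c d, w c d = w d c) (r : ℝ) : V0 R →ₗ[ℝ] V0 R where
  toFun t := ⟨K w r t.1, K_s0 hws r t.2⟩
  map_add' a b := by
    apply Subtype.ext
    funext c x y
    show K w r (fun c x y => a.1 c x y + b.1 c x y) c x y = K w r a.1 c x y + K w r b.1 c x y
    unfold K
    rw [Dl_add w (fun d => a.1 d x y) (fun d => b.1 d x y),
      Dl_add w (fun d => a.1 c d y) (fun d => b.1 c d y),
      Dl_add w (fun d => a.1 c x d) (fun d => b.1 c x d)]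
    ring
  map_smul' s a := by
    apply Subtype.ext
    funext c x y
    show K w r (fun c x y => s * a.1 c x y) c x y = s * K w r a.1 c x y
    unfold K
    rw [Dl_smul w s (fun d => a.1 d x y), Dl_smul w s (fun d => a.1 c d y),
      Dl_smul w s (fun d => a.1 c x d)]
    ring

lemma K_inner {lam r : ℝ} (hgap : Gap w lam)
    {t : R → R → R → ℝ} (ht : S0 t) :
    (3 * lam - 2 * r) * ∑ c, ∑ x, ∑ y, t c x y ^ 2 ≤ ∑ c, ∑ x, ∑ y, t c x y * K w r t c x y := by
  have h3 : ∀ c x, lam * ∑ y, t c x y ^ 2 ≤ ∑ y, t c x y * Dl w (fun d => t c x d) y :=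
    fun c x => hgap (fun y => t c x y) (ht.mg c x)
  have h2 : ∀ c y, lam * ∑ x, t c x y ^ 2 ≤ ∑ x, t c x y * Dl w (fun d => t c d y) x :=
    fun c y => hgap (fun x => t c x y) (ht.mg2 c y)
  have h1 : ∀ x y, lam * ∑ c, t c x y ^ 2 ≤ ∑ c, t c x y * Dl w (fun d => t d x y) c :=
    fun x y => hgap (fun c => t c x y) (ht.mg1 x y)
  have H3 : lam * ∑ c, ∑ x, ∑ y, t c x y ^ 2
      ≤ ∑ c, ∑ x, ∑ y, t c x y * Dl w (fun d => t c x d) y := by
    rw [Finset.mul_sum]
    apply Finset.sum_le_sum
    intro c _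
    rw [Finset.mul_sum]
    exact Finset.sum_le_sum (fun x _ => h3 c x)
  have H2 : lam * ∑ c, ∑ x, ∑ y, t c x y ^ 2
      ≤ ∑ c, ∑ x, ∑ y, t c x y * Dl w (fun d => t c d y) x := by
    rw [Finset.mul_sum]
    apply Finset.sum_le_sum
    intro c _
    rw [Finset.sum_comm, Finset.sum_comm (f := fun x y => t c x y * Dl w (fun d => t c d y) x),
      Finset.mul_sum]
    exact Finset.sum_le_sum (fun y _ => h2 c y)
  have swap : ∀ f : R → R → R → ℝ, ∑ c, ∑ x, ∑ y, f c x y = ∑ x, ∑ y, ∑ c, f c x y := by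
    intro f
    rw [Finset.sum_comm]
    exact Finset.sum_congr rfl (fun x _ => Finset.sum_comm)
  have H1 : lam * ∑ c, ∑ x, ∑ y, t c x y ^ 2
      ≤ ∑ c, ∑ x, ∑ y, t c x y * Dl w (fun d => t d x y) c := by
    rw [swap, swap (fun c x y => t c x y * Dl w (fun d => t d x y) c), Finset.mul_sum]
    apply Finset.sum_le_sum
    intro x _
    rw [Finset.mul_sum]
    exact Finset.sum_le_sum (fun y _ => h1 x y)
  have hsplit : ∑ c, ∑ x, ∑ y, t c x y * K w r t c x y
      = (∑ c, ∑ x, ∑ y, t c x y * Dl w (fun d => t d x y) c)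
        + (∑ c, ∑ x, ∑ y, t c x y * Dl w (fun d => t c d y) x)
        + (∑ c, ∑ x, ∑ y, t c x y * Dl w (fun d => t c x d) y)
        - 2 * r * ∑ c, ∑ x, ∑ y, t c x y ^ 2 := by
    rw [← Finset.sum_add_distrib, ← Finset.sum_add_distrib, Finset.mul_sum,
      ← Finset.sum_sub_distrib]
    apply Finset.sum_congr rfl
    intro c _
    rw [← Finset.sum_add_distrib, ← Finset.sum_add_distrib, Finset.mul_sum,
      ← Finset.sum_sub_distrib]
    apply Finset.sum_congr rfl
    intro x _
    rw [← Finset.sum_add_distrib, ← Finset.sum_add_distrib, Finset.mul_sum,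
      ← Finset.sum_sub_distrib]
    apply Finset.sum_congr rfl
    intro y _
    unfold K
    ring
  rw [hsplit]
  linarith

lemma S0.eq_zero {t : R → R → R → ℝ} (h : ∑ c, ∑ x, ∑ y, t c x y ^ 2 ≤ 0) (c x y : R) :
    t c x y = 0 := by
  have h1 : t c x y ^ 2 ≤ ∑ y, t c x y ^ 2 :=
    Finset.single_le_sum (f := fun y => t c x y ^ 2) (fun _ _ => sq_nonneg _) (Finset.mem_univ y)
  have h2 : ∑ y, t c x y ^ 2 ≤ ∑ x, ∑ y, t c x y ^ 2 :=
    Finset.single_le_sum (f := fun x => ∑ y, t c x y ^ 2)
      (fun _ _ => Finset.sum_nonneg (fun _ _ => sq_nonneg _)) (Finset.mem_univ x)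
  have h3 : ∑ x, ∑ y, t c x y ^ 2 ≤ ∑ c, ∑ x, ∑ y, t c x y ^ 2 :=
    Finset.single_le_sum (f := fun c => ∑ x, ∑ y, t c x y ^ 2)
      (fun _ _ => Finset.sum_nonneg (fun _ _ => Finset.sum_nonneg (fun _ _ => sq_nonneg _)))
      (Finset.mem_univ c)
  have h4 : t c x y ^ 2 ≤ 0 := by linarith
  exact pow_eq_zero_iff (two_ne_zero) |>.1 (le_antisymm h4 (sq_nonneg _))

/-- uniqueness -/
lemma K_unique (hws : ∀ c d, w c d = w d c) {lam r : ℝ} (hgap : Gap w lam)
    (hr : 2 * r < 3 * lam) {t t' : R → R → R → ℝ} (ht : S0 t) (ht' : S0 t')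
    (h : ∀ c x y, K w r t c x y = K w r t' c x y) : t = t' := by
  have hd : S0 (fun c x y => t c x y - t' c x y) := by
    refine ⟨?_, ?_, ?_⟩
    · intro c x y
      show t c x y - t' c x y = t x c y - t' x c y
      rw [ht.s12, ht'.s12]
    · intro c x y
      show t c x y - t' c x y = t c y x - t' c y x
      rw [ht.s23, ht'.s23]
    · intro c x
      show ∑ y, (t c x y - t' c x y) = 0
      rw [Finset.sum_sub_distrib, ht.mg, ht'.mg, sub_zero]
  have h1 := K_inner (r := r) hgap hd
  have h2 : ∀ c x y, K w r (fun c x y => t c x y - t' c x y) c x y = 0 := by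
    intro c x y
    have h3 : K w r (fun c x y => t c x y - t' c x y) c x y = K w r t c x y - K w r t' c x y := by
      unfold K
      rw [Dl_sub w (fun d => t d x y) (fun d => t' d x y),
        Dl_sub w (fun d => t c d y) (fun d => t' c d y),
        Dl_sub w (fun d => t c x d) (fun d => t' c x d)]
      ring
    rw [h3, h, sub_self]
  have h3 : ∑ c, ∑ x, ∑ y, (t c x y - t' c x y) *
      K w r (fun c x y => t c x y - t' c x y) c x y = 0 := by
    apply Finset.sum_eq_zero
    intro c _
    apply Finset.sum_eq_zero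
    intro x _
    apply Finset.sum_eq_zero
    intro y _
    rw [h2, mul_zero]
  rw [h3] at h1
  have h4 : ∑ c, ∑ x, ∑ y, (t c x y - t' c x y) ^ 2 ≤ 0 := by
    by_contra hcon
    push Not at hcon
    have : 0 < (3 * lam - 2 * r) * ∑ c, ∑ x, ∑ y, (t c x y - t' c x y) ^ 2 :=
      mul_pos (by linarith) hcon
    linarith
  funext c x y
  have h5 := S0.eq_zero h4 c x y
  linarith

lemma KL_surjective (hws : ∀ c d, w c d = w d c) {lam r : ℝ} (hgap : Gap w lam)
    (hr : 2 * r < 3 * lam) : Function.Surjective (KL (R := R) hws r) := by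
  apply (LinearMap.injective_iff_surjective (f := KL (R := R) hws r)).1
  intro a b hab
  apply Subtype.ext
  apply K_unique hws hgap hr a.2 b.2
  intro c x y
  have := congrArg Subtype.val hab
  exact congrFun (congrFun (congrFun this c) x) y

lemma Psi_perm12 (w : R → R → ℝ) (r : ℝ) (X Z W : R → ℝ) : Psi w r X Z W = Psi w r Z X W := by
  unfold Psi
  congr 1
  · congr 1
    exact Finset.sum_congr rfl (fun e _ => by ring)
  · congr 1
    apply Finset.sum_congr rfl
    intro e _
    rw [Gm_symm w X Z]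
    ring

lemma Psi_perm23 (w : R → R → ℝ) (r : ℝ) (X Z W : R → ℝ) : Psi w r X Z W = Psi w r X W Z := by
  unfold Psi
  congr 1
  · congr 1
    exact Finset.sum_congr rfl (fun e _ => by ring)
  · congr 1
    apply Finset.sum_congr rfl
    intro e _
    rw [Gm_symm w Z W]
    ring

lemma Gm_const_left (w : R → R → ℝ) (a : ℝ) (Z : R → ℝ) (c : R) : Gm w (fun _ => a) Z c = 0 := by
  unfold Gm
  rw [Finset.sum_eq_zero, mul_zero]
  intro d _
  ring

lemma Psi_const (w : R → R → ℝ) (r a : ℝ) (X Z : R → ℝ) : Psi w r (fun _ => a) X Z = 0 := by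
  unfold Psi
  rw [Finset.sum_eq_zero, Finset.sum_eq_zero]
  · ring
  · intro e _
    rw [Gm_const_left, Dl_const, Gm_const_left]
    ring
  · intro e _
    rw [Dl_const]
    ring

lemma sg_s0 (w : R → R → ℝ) (r : ℝ) : S0 (sg w r) := by
  classical
  refine ⟨?_, ?_, ?_⟩
  · intro c x y
    unfold sg
    exact Psi_perm12 w r _ _ _
  · intro c x y
    unfold sg
    exact Psi_perm23 w r _ _ _
  · intro c x
    have h1 : ∑ y, sg w r c x y = Q (sg w r) c (Pi.single x 1) (fun _ => 1) := by
      unfold Q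
      rw [Finset.sum_comm]
      apply Finset.sum_congr rfl
      intro y _
      rw [Finset.sum_eq_single x]
      · simp
      · intro b _ hb
        rw [Pi.single_eq_of_ne hb]
        ring
      · intro h
        exact absurd (Finset.mem_univ x) h
    rw [h1, Q_sg, Psi_perm23, Psi_perm12, Psi_const]

theorem th_exists (hws : ∀ c d, w c d = w d c) {lam r : ℝ} (hgap : Gap w lam)
    (hr : 2 * r < 3 * lam) :
    ∃ t : R → R → R → ℝ, S0 t ∧ ∀ c x y, K w r t c x y = - sg w r c x y := by
  have hs : -(sg w r) ∈ V0 R := Submodule.neg_mem _ (sg_s0 w r)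
  obtain ⟨t, ht⟩ := KL_surjective (R := R) hws hgap hr ⟨_, hs⟩
  refine ⟨t.1, t.2, ?_⟩
  intro c x y
  have := congrArg Subtype.val ht
  exact congrFun (congrFun (congrFun this c) x) y

theorem th_spec (hws : ∀ c d, w c d = w d c) {lam r : ℝ} (hgap : Gap w lam)
    (hr : 2 * r < 3 * lam) : S0 (th w r) ∧ ∀ c x y, K w r (th w r) c x y = - sg w r c x y := by
  have h := th_exists hws hgap hr
  unfold th
  rw [dif_pos h]
  exact h.choose_spec

end ANG
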