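import Pool.Agent.ANG.Rt

/-! # ANG: spectral gaps of residues -/

set_option autoImplicit false

namespace ANG

variable {G V I : Type*} [Group G] [MulAction G V] [Fintype I] {rel : I → V → V → Prop}
  {b : I → ℝ}

/-- average over the class of `x` of a function on a residue -/
noncomputable def Av (hfin : ∀ c, Finite (RT rel b c)) (i : I) (c : V) (X : RT rel b c → ℝ)
    (x : RT rel b c) : ℝ :=
  @Finset.sum _ _ _ (@Finset.univ _ (fi hfin c)) (fun y => P rel i x.1 y.1 * X y)

lemma P_sum_res (hC : Ch G rel) (hfin : ∀ c, Finite (RT rel b c)) {i : I} (hi : b i ≠ 0) (c : V)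
    (x : RT rel b c) :
    @Finset.sum _ _ _ (@Finset.univ _ (fi hfin c)) (fun y : RT rel b c => P rel i x.1 y.1) = 1 := by
  classical
  let _ : Fintype (RT rel b c) := fi hfin c
  have h1 : ∀ d, rel i x.1 d → d ∈ (Finset.univ : Finset (RT rel b c)).image Subtype.val := by
    intro d hd
    rw [Finset.mem_image]
    exact ⟨⟨d, Rs_trans x.2 (Rs_of_rel hi hd)⟩, Finset.mem_univ _, rfl⟩
  have h2 := P_sum hC i x.1 _ h1
  rw [Finset.sum_image (fun a _ b _ h => Subtype.ext h)] at h2
  exact h2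

lemma Av_const (hC : Ch G rel) (hfin : ∀ c, Finite (RT rel b c)) {i : I} (c : V)
    (X : RT rel b c → ℝ) {x y : RT rel b c} (h : rel i x.1 y.1) :
    Av hfin i c X x = Av hfin i c X y := by
  unfold Av
  exact Finset.sum_congr rfl (fun z _ => by rw [P_trans hC h])

/-- the averages are projections -/
lemma sum_mul_Av (hC : Ch G rel) (hfin : ∀ c, Finite (RT rel b c)) {i : I} (hi : b i ≠ 0) (c : V)
    (X Z : RT rel b c → ℝ) (hZ : ∀ x y : RT rel b c, rel i x.1 y.1 → Z x = Z y) :
    @Finset.sum _ _ _ (@Finset.univ _ (fi hfin c)) (fun x => Av hfin i c X x * Z x)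
      = @Finset.sum _ _ _ (@Finset.univ _ (fi hfin c)) (fun x => X x * Z x) := by
  classical
  let _ : Fintype (RT rel b c) := fi hfin c
  have h1 : ∀ x, Av hfin i c X x * Z x = ∑ y, P rel i x.1 y.1 * X y * Z x := by
    intro x
    unfold Av
    rw [Finset.sum_mul]
  rw [Finset.sum_congr rfl (fun x _ => h1 x), Finset.sum_comm]
  apply Finset.sum_congr rfl
  intro y _
  have h2 : ∀ x : RT rel b c, P rel i x.1 y.1 * X y * Z x = P rel i y.1 x.1 * (X y * Z y) := by
    intro x
    by_cases h : rel i x.1 y.1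
    · rw [hZ x y h, P_symm hC i x.1 y.1]
      ring
    · rw [P_symm hC i x.1 y.1, P_of_not (fun h' => h ((hC.eqv i).symm h'))]
      ring
  rw [Finset.sum_congr rfl (fun x _ => h2 x), ← Finset.sum_mul, P_sum_res hC hfin hi c y, one_mul]

lemma sum_Av (hC : Ch G rel) (hfin : ∀ c, Finite (RT rel b c)) {i : I} (hi : b i ≠ 0) (c : V)
    (X : RT rel b c → ℝ) :
    @Finset.sum _ _ _ (@Finset.univ _ (fi hfin c)) (fun x => Av hfin i c X x)
      = @Finset.sum _ _ _ (@Finset.univ _ (fi hfin c)) (fun x => X x) := by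
  have h := sum_mul_Av hC hfin hi c X (fun _ => 1) (fun _ _ _ => rfl)
  simpa using h

lemma sum_Av_sq (hC : Ch G rel) (hfin : ∀ c, Finite (RT rel b c)) {i : I} (hi : b i ≠ 0) (c : V)
    (X : RT rel b c → ℝ) :
    @Finset.sum _ _ _ (@Finset.univ _ (fi hfin c)) (fun x => Av hfin i c X x ^ 2)
      = @Finset.sum _ _ _ (@Finset.univ _ (fi hfin c)) (fun x => X x * Av hfin i c X x) := by
  have h := sum_mul_Av hC hfin hi c X (Av hfin i c X) (fun x y h => Av_const hC hfin c X h)
  rw [← h]
  exact Finset.sum_congr rfl (fun x _ => by ring)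

/-- the Dirichlet form of a residue -/
lemma dirichlet (hC : Ch G rel) (hfin : ∀ c, Finite (RT rel b c)) (c : V)
    (X : RT rel b c → ℝ) :
    @Finset.sum _ _ _ (@Finset.univ _ (fi hfin c))
        (fun x => X x * @Dl _ (fi hfin c) (wR rel b c) X x)
      = ∑ i, b i * @Finset.sum _ _ _ (@Finset.univ _ (fi hfin c))
        (fun x => (X x - Av hfin i c X x) ^ 2) := by
  classical
  let _ : Fintype (RT rel b c) := fi hfin c
  have h1 : ∀ x, X x * Dl (wR rel b c) X x = ∑ i, b i * (X x * (X x - Av hfin i c X x)) := by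
    intro x
    have h2 : Dl (wR rel b c) X x = ∑ i, b i * (X x - Av hfin i c X x) := by
      unfold Dl wR W
      have h3 : ∀ d : RT rel b c, (∑ i, b i * P rel i x.1 d.1) * (X x - X d)
          = ∑ i, b i * (P rel i x.1 d.1 * (X x - X d)) := by
        intro d
        rw [Finset.sum_mul]
        exact Finset.sum_congr rfl (fun i _ => by ring)
      rw [Finset.sum_congr rfl (fun d _ => h3 d), Finset.sum_comm]
      apply Finset.sum_congr rfl
      intro i _
      rw [← Finset.mul_sum]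
      by_cases hi : b i = 0
      · rw [hi, zero_mul, zero_mul]
      · congr 1
        have h4 : ∀ d : RT rel b c, P rel i x.1 d.1 * (X x - X d)
            = P rel i x.1 d.1 * X x - P rel i x.1 d.1 * X d := fun d => by ring
        rw [Finset.sum_congr rfl (fun d _ => h4 d), Finset.sum_sub_distrib, ← Finset.sum_mul,
          P_sum_res hC hfin hi c x, one_mul]
        rfl
    rw [h2, Finset.mul_sum]
    exact Finset.sum_congr rfl (fun i _ => by ring)
  rw [Finset.sum_congr rfl (fun x _ => h1 x), Finset.sum_comm]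
  apply Finset.sum_congr rfl
  intro i _
  rw [← Finset.mul_sum]
  by_cases hi : b i = 0
  · rw [hi, zero_mul, zero_mul]
  · congr 1
    have h5 := sum_Av_sq hC hfin hi c X
    have h6 : ∑ x, (X x - Av hfin i c X x) ^ 2
        = ∑ x, X x * (X x - Av hfin i c X x) - (∑ x, X x * Av hfin i c X x
          - ∑ x, Av hfin i c X x ^ 2) := by
      rw [← Finset.sum_sub_distrib, ← Finset.sum_sub_distrib]
      exact Finset.sum_congr rfl (fun x _ => by ring)
    rw [h6, h5]
    ring

/-- a gap from squares -/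
lemma gap_of_sq (hC : Ch G rel) (hfin : ∀ c, Finite (RT rel b c)) (c : V) {lam : ℝ}
    (h : ∀ X : RT rel b c → ℝ,
      @Finset.sum _ _ _ (@Finset.univ _ (fi hfin c)) (fun x => X x) = 0 →
      lam * @Finset.sum _ _ _ (@Finset.univ _ (fi hfin c)) (fun x => X x ^ 2)
        ≤ ∑ i, b i * @Finset.sum _ _ _ (@Finset.univ _ (fi hfin c))
          (fun x => (X x - Av hfin i c X x) ^ 2)) :
    @Gap _ (fi hfin c) (wR rel b c) lam := by
  intro X hX
  rw [dirichlet hC hfin c X]
  exact h X hX

/-- a gap from an angle -/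
lemma gap_of_angle (hC : Ch G rel) (hfin : ∀ c, Finite (RT rel b c)) (c : V) {i j : I}
    (hij : i ≠ j) {β ε : ℝ} (hβ : 0 < β) (hbi : b i = β) (hbj : b j = β)
    (hb : ∀ k, k ≠ i → k ≠ j → b k = 0) (hε : 0 ≤ ε)
    (h : ∀ X Z : RT rel b c → ℝ, (∀ x y, rel i x.1 y.1 → X x = X y) →
      (∀ x y, rel j x.1 y.1 → Z x = Z y) →
      @Finset.sum _ _ _ (@Finset.univ _ (fi hfin c)) (fun x => X x) = 0 →
      @Finset.sum _ _ _ (@Finset.univ _ (fi hfin c)) (fun x => Z x) = 0 →
      2 * @Finset.sum _ _ _ (@Finset.univ _ (fi hfin c)) (fun x => X x * Z x)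
        ≤ ε * (@Finset.sum _ _ _ (@Finset.univ _ (fi hfin c)) (fun x => X x ^ 2)
          + @Finset.sum _ _ _ (@Finset.univ _ (fi hfin c)) (fun x => Z x ^ 2))) :
    @Gap _ (fi hfin c) (wR rel b c) (β * (1 - ε)) := by
  classical
  let _ : Fintype (RT rel b c) := fi hfin c
  apply gap_of_sq hC hfin c
  intro X hX
  have hi0 : b i ≠ 0 := by rw [hbi]; exact hβ.ne'
  have hj0 : b j ≠ 0 := by rw [hbj]; exact hβ.ne'
  have hsum : ∑ k, b k * ∑ x, (X x - Av hfin k c X x) ^ 2
      = β * ∑ x, (X x - Av hfin i c X x) ^ 2 + β * ∑ x, (X x - Av hfin j c X x) ^ 2 := by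
    have h1 : ∑ k, b k * ∑ x, (X x - Av hfin k c X x) ^ 2
        = ∑ k ∈ ({i, j} : Finset I), b k * ∑ x, (X x - Av hfin k c X x) ^ 2 := by
      symm
      apply Finset.sum_subset (Finset.subset_univ _)
      intro k _ hk
      rw [Finset.mem_insert, Finset.mem_singleton, not_or] at hk
      rw [hb k hk.1 hk.2, zero_mul]
    rw [h1, Finset.sum_pair hij, hbi, hbj]
  rw [hsum]
  set a : ℝ := ∑ x, X x ^ 2 with ha
  set p : ℝ := ∑ x, Av hfin i c X x ^ 2 with hp
  set q : ℝ := ∑ x, Av hfin j c X x ^ 2 with hq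
  have hpi := sum_Av_sq hC hfin hi0 c X
  have hqj := sum_Av_sq hC hfin hj0 c X
  have e1 : ∑ x, (X x - Av hfin i c X x) ^ 2 = a - p := by
    have : ∀ x, (X x - Av hfin i c X x) ^ 2
        = X x ^ 2 - 2 * (X x * Av hfin i c X x) + Av hfin i c X x ^ 2 := fun x => by ring
    rw [Finset.sum_congr rfl (fun x _ => this x), Finset.sum_add_distrib, Finset.sum_sub_distrib,
      ← Finset.mul_sum, ← hpi, ← ha, ← hp]
    ring
  have e2 : ∑ x, (X x - Av hfin j c X x) ^ 2 = a - q := by
    have : ∀ x, (X x - Av hfin j c X x) ^ 2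
        = X x ^ 2 - 2 * (X x * Av hfin j c X x) + Av hfin j c X x ^ 2 := fun x => by ring
    rw [Finset.sum_congr rfl (fun x _ => this x), Finset.sum_add_distrib, Finset.sum_sub_distrib,
      ← Finset.mul_sum, ← hqj, ← ha, ← hq]
    ring
  rw [e1, e2]
  -- the angle between the two averages
  have hang := h (Av hfin i c X) (Av hfin j c X) (fun x y h => Av_const hC hfin c X h)
    (fun x y h => Av_const hC hfin c X h) (by rw [sum_Av hC hfin hi0 c X]; exact hX)
    (by rw [sum_Av hC hfin hj0 c X]; exact hX)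
  -- `p + q = <X, A_i X + A_j X>` and Cauchy-Schwarz
  have hcs : (∑ x, X x * (Av hfin i c X x + Av hfin j c X x)) ^ 2
      ≤ (∑ x, X x ^ 2) * ∑ x, (Av hfin i c X x + Av hfin j c X x) ^ 2 :=
    Finset.sum_mul_sq_le_sq_mul_sq _ _ _
  have e3 : ∑ x, X x * (Av hfin i c X x + Av hfin j c X x) = p + q := by
    have : ∀ x, X x * (Av hfin i c X x + Av hfin j c X x)
        = X x * Av hfin i c X x + X x * Av hfin j c X x := fun x => by ring
    rw [Finset.sum_congr rfl (fun x _ => this x), Finset.sum_add_distrib, ← hpi, ← hqj]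
  have e4 : ∑ x, (Av hfin i c X x + Av hfin j c X x) ^ 2
      = p + q + 2 * ∑ x, Av hfin i c X x * Av hfin j c X x := by
    have : ∀ x, (Av hfin i c X x + Av hfin j c X x) ^ 2
        = Av hfin i c X x ^ 2 + Av hfin j c X x ^ 2 + 2 * (Av hfin i c X x * Av hfin j c X x) :=
      fun x => by ring
    rw [Finset.sum_congr rfl (fun x _ => this x), Finset.sum_add_distrib, Finset.sum_add_distrib,
      ← Finset.mul_sum]
  rw [e3, e4] at hcs
  have hp0 : 0 ≤ p := Finset.sum_nonneg (fun x _ => sq_nonneg _)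
  have hq0 : 0 ≤ q := Finset.sum_nonneg (fun x _ => sq_nonneg _)
  have ha0 : 0 ≤ a := Finset.sum_nonneg (fun x _ => sq_nonneg _)
  have hmain : p + q ≤ (1 + ε) * a := by
    have h1 : (p + q) ^ 2 ≤ a * ((1 + ε) * (p + q)) := by
      refine hcs.trans (mul_le_mul_of_nonneg_left ?_ ha0)
      linarith
    rcases (add_nonneg hp0 hq0).lt_or_eq with h2 | h2
    · have h3 : (p + q) * (p + q) ≤ ((1 + ε) * a) * (p + q) := by
        nlinarith
      exact le_of_mul_le_mul_right h3 h2
    · rw [← h2]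
      positivity
  have : β * ((1 - ε) * a) ≤ β * ((a - p) + (a - q)) :=
    mul_le_mul_of_nonneg_left (by linarith) hβ.le
  linarith

end ANG
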