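import Pool.Agent.ANG.Glo
import Pool.Agent.ANG.Gp
import Pool.Agent.ZUK.Fi

/-! # ANG: chamber systems with an angle condition -/

set_option autoImplicit false

open MulAction LGap

namespace ANG

lemma exists_small {I : Type*} [Finite I] (g s : I → ℝ) (hg : ∀ i, 0 < g i) (hs : ∀ i, 0 ≤ s i) :
    ∃ δ : ℝ, 0 < δ ∧ δ ≤ 1 ∧ ∀ i, δ * s i < g i := by
  rcases isEmpty_or_nonempty I with h | h
  · exact ⟨1, one_pos, le_rfl, fun i => (h.false i).elim⟩
  · obtain ⟨i0, hi0⟩ := Finite.exists_min (fun i => g i / (s i + 1))
    have hpos : ∀ i, 0 < g i / (s i + 1) := fun i => div_pos (hg i) (by linarith [hs i])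
    refine ⟨min 1 (g i0 / (s i0 + 1)), lt_min one_pos (hpos i0), min_le_left _ _, ?_⟩
    intro i
    have h1 : min 1 (g i0 / (s i0 + 1)) ≤ g i / (s i + 1) := (min_le_right _ _).trans (hi0 i)
    have h2 : 0 < s i + 1 := by linarith [hs i]
    have h3 := (le_div_iff₀ h2).1 h1
    have h4 : 0 < min 1 (g i0 / (s i0 + 1)) := lt_min one_pos (hpos i0)
    nlinarith

theorem angle_main {G V I T : Type*} [Group G] [MulAction G V] [Nonempty V] [Fintype I]
    [Fintype T] {rel : I → V → V → Prop} (hC : Ch G rel)
    (hf : Finite (Ty G V)) (hst : ∀ v : V, Finite (MulAction.stabilizer G v))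
    (hconn : ∀ v u : V, Relation.ReflTransGen (fun a b => ∃ i, rel i a b) v u)
    {al : I → ℝ} (hal : ∀ i, 0 < al i) {b : T → I → ℝ} (hb : ∀ t i, 0 ≤ b t i) {lam : T → ℝ}
    (hlam : ∀ t, 0 < lam t) (hfin : ∀ t c, Finite (RT rel (b t) c))
    (hgap : ∀ t c, @Gap _ (fi (hfin t) c) (wR rel (b t) c) (lam t))
    (hcross : ∀ i j, i ≠ j → ∑ t, b t i * b t j = al i * al j)
    (hdiag : ∀ i, ∑ t, b t i * (b t i - lam t) < al i ^ 2) (K : Subgroup G) [K.FiniteIndex]
    {X : Type*} [LinearOrder X] (ψ : K →* (X ≃o X)) : ψ = 1 := by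
  classical
  obtain ⟨δ, hδ0, hδ1, hδ⟩ := exists_small
    (fun i => al i ^ 2 - ∑ t, b t i * (b t i - lam t)) (fun i => ∑ t, b t i * lam t)
    (fun i => sub_pos.2 (hdiag i))
    (fun i => Finset.sum_nonneg (fun t _ => mul_nonneg (hb t i) (hlam t).le))
  set r : T → ℝ := fun t => (1 - δ) * lam t with hr
  set d : I → ℝ := fun i => al i ^ 2 - ∑ t, b t i ^ 2 with hd
  have hr0 : ∀ t, 0 ≤ r t := fun t => mul_nonneg (by linarith) (hlam t).le
  have hr1 : ∀ t, r t < lam t := by
    intro t
    have := mul_pos hδ0 (hlam t)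
    rw [hr]
    show (1 - δ) * lam t < lam t
    linarith
  have hr2 : ∀ t, 2 * r t < 3 * lam t := fun t => by linarith [hr0 t, hr1 t, hlam t]
  have hk : ∀ i, ∑ t, r t * b t i + d i
      = (al i ^ 2 - ∑ t, b t i * (b t i - lam t)) - δ * ∑ t, b t i * lam t := by
    intro i
    have e1 : ∑ t, b t i * (b t i - lam t) = ∑ t, b t i ^ 2 - ∑ t, b t i * lam t := by
      rw [← Finset.sum_sub_distrib]
      exact Finset.sum_congr rfl (fun t _ => by ring)
    have e2 : ∑ t, r t * b t i = (1 - δ) * ∑ t, b t i * lam t := by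
      rw [Finset.mul_sum]
      exact Finset.sum_congr rfl (fun t _ => by
        show (1 - δ) * lam t * b t i = _
        ring)
    rw [e1, e2]
    show _ + (al i ^ 2 - ∑ t, b t i ^ 2) = _
    ring
  have hkpos : ∀ i, 0 < ∑ t, r t * b t i + d i := by
    intro i
    rw [hk]
    exact sub_pos.2 (hδ i)
  obtain ⟨κ, hκ0, _, hκ⟩ := exists_small (fun i => ∑ t, r t * b t i + d i) (fun i => 2 * al i)
    hkpos (fun i => by linarith [hal i])
  have hw : ZUK.Gr G (W rel al) :=
    ⟨fun u v => W_nonneg rel (fun i => (hal i).le) u v, W_symm hC al, W_smul hC al, W_fin hC al⟩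
  have hφ : ZUK.Tn G (Ph rel b hfin r d) :=
    ⟨Ph_swap12 hC hgap hr2, Ph_swap23 hC hgap hr2, Ph_smul hC hgap hr2, Ph_fin hC⟩
  have hct : ZUK.Ct hw hφ κ 1 := by
    refine ⟨hκ0, zero_le_one, Ph_mg hC hgap hr2, ?_⟩
    intro v f
    have h1 := Ph_ineq hC hb hgap hr0 hr1 (fun i => rfl) hcross (fun i => (hκ i).le) v f
    rw [ZUK.sum_nb hw v (fun u => (f u - f v) ^ 2), ZUK.sum_nb hw v (fun u => f u - f v)]
    have h2 : ∑ q ∈ ZUK.pq hφ v, Ph rel b hfin r d v q.1 q.2 * (f q.1 * f q.2)
        = ∑ᶠ q : V × V, Ph rel b hfin r d v q.1 q.2 * (f q.1 * f q.2) := by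
      symm
      apply finsum_eq_sum_of_support_subset
      intro q hq
      simp only [Function.mem_support, ne_eq, mul_eq_zero, not_or] at hq
      exact (ZUK.mem_pq hφ).2 hq.1
    rw [h2]
    exact h1
  refine ZUK.order_trivial hw hφ hf hst ?_ (fun _ => ⟨κ, 1, hct⟩) K ψ
  intro v u
  have h1 := hconn v u
  induction h1 with
  | refl => exact Relation.ReflTransGen.refl
  | tail _ hbc ih =>
    obtain ⟨i, hi⟩ := hbc
    exact ih.tail (W_ne_zero hal hC hi)

/-- a symmetric positive definite matrix with nonpositive off-diagonal entries is positive on some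
positive vector -/
lemma exists_alpha {I : Type*} [Fintype I] [DecidableEq I] (ε : I → I → ℝ)
    (hs : ∀ i j, ε i j = ε j i) (h0 : ∀ i j, 0 ≤ ε i j)
    (hpd : ∀ x : I → ℝ, x ≠ 0 →
      ∑ i, ∑ j, (if i = j then 0 else ε i j * x i * x j) < ∑ i, x i ^ 2) :
    ∃ al : I → ℝ, (∀ i, 0 < al i) ∧ ∀ i, ∑ j, (if i = j then 0 else ε i j * al j) < al i := by
  classical
  let A : (I → ℝ) →ₗ[ℝ] (I → ℝ) :=
    { toFun := fun x i => x i - ∑ j, (if i = j then 0 else ε i j * x j)
      map_add' := by
        intro x y
        funext i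
        simp only [Pi.add_apply]
        have : ∑ j, (if i = j then 0 else ε i j * (x j + y j))
            = ∑ j, (if i = j then 0 else ε i j * x j) + ∑ j, (if i = j then 0 else ε i j * y j) := by
          rw [← Finset.sum_add_distrib]
          apply Finset.sum_congr rfl
          intro j _
          split_ifs
          · ring
          · ring
        rw [this]
        ring
      map_smul' := by
        intro a x
        funext i
        simp only [Pi.smul_apply, smul_eq_mul, RingHom.id_apply]
        have : ∑ j, (if i = j then 0 else ε i j * (a * x j))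
            = a * ∑ j, (if i = j then 0 else ε i j * x j) := by
          rw [Finset.mul_sum]
          apply Finset.sum_congr rfl
          intro j _
          split_ifs
          · ring
          · ring
        rw [this]
        ring }
  have hAapp : ∀ x i, A x i = x i - ∑ j, (if i = j then 0 else ε i j * x j) := fun _ _ => rfl
  have hquad : ∀ x : I → ℝ, ∑ i, x i * A x i
      = ∑ i, x i ^ 2 - ∑ i, ∑ j, (if i = j then 0 else ε i j * x i * x j) := by
    intro x
    rw [← Finset.sum_sub_distrib]
    apply Finset.sum_congr rfl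
    intro i _
    rw [hAapp, mul_sub, Finset.mul_sum]
    congr 1
    · ring
    · apply Finset.sum_congr rfl
      intro j _
      split_ifs
      · ring
      · ring
  have hinj : Function.Injective A := by
    rw [← LinearMap.ker_eq_bot, LinearMap.ker_eq_bot']
    intro x hx
    by_contra hne
    have h1 := hpd x hne
    have h2 := hquad x
    rw [hx] at h2
    simp only [Pi.zero_apply, mul_zero, Finset.sum_const_zero] at h2
    linarith
  have hsurj : Function.Surjective A := (LinearMap.injective_iff_surjective (f := A)).1 hinj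
  obtain ⟨al, hal⟩ := hsurj (fun _ => 1)
  have hal1 : ∀ i, al i - ∑ j, (if i = j then 0 else ε i j * al j) = 1 := fun i =>
    (hAapp al i).symm.trans (congrFun hal i)
  -- nonnegativity
  have hnn : ∀ i, 0 ≤ al i := by
    set y : I → ℝ := fun i => max (- al i) 0 with hy
    have hy0 : ∀ i, 0 ≤ y i := fun i => le_max_right _ _
    have hyz : y = 0 := by
      by_contra hne
      have h1 := hpd y hne
      have h2 : ∑ i, y i * (al i - ∑ j, (if i = j then 0 else ε i j * al j)) = ∑ i, y i :=
        Finset.sum_congr rfl (fun i _ => by rw [hal1, mul_one])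
      have h3 : 0 ≤ ∑ i, y i := Finset.sum_nonneg (fun i _ => hy0 i)
      have h4 : ∀ i, y i * (al i - ∑ j, (if i = j then 0 else ε i j * al j))
          ≤ - y i ^ 2 + ∑ j, (if i = j then 0 else ε i j * y i * y j) := by
        intro i
        have h5 : y i * al i = - y i ^ 2 := by
          rcases le_total (al i) 0 with h | h
          · have : y i = - al i := max_eq_left (by linarith)
            rw [this]
            ring
          · have : y i = 0 := max_eq_right (by linarith)
            rw [this]
            ring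
        have h6 : - (y i * ∑ j, (if i = j then 0 else ε i j * al j))
            ≤ ∑ j, (if i = j then 0 else ε i j * y i * y j) := by
          rw [Finset.mul_sum, ← Finset.sum_neg_distrib]
          apply Finset.sum_le_sum
          intro j _
          by_cases hij : i = j
          · rw [if_pos hij, if_pos hij]
            simp
          · rw [if_neg hij, if_neg hij]
            have h7 : - al j ≤ y j := le_max_left _ _
            have h8 := mul_le_mul_of_nonneg_left h7 (mul_nonneg (h0 i j) (hy0 i))
            linarith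
        rw [mul_sub, h5]
        linarith
      have h9 := Finset.sum_le_sum (fun i (_ : i ∈ Finset.univ) => h4 i)
      rw [h2, Finset.sum_add_distrib, Finset.sum_neg_distrib] at h9
      linarith
    intro i
    have h1 : y i = 0 := congrFun hyz i
    have h2 : - al i ≤ y i := le_max_left _ _
    linarith
  refine ⟨al, ?_, ?_⟩
  · intro i
    have h1 : 0 ≤ ∑ j, (if i = j then 0 else ε i j * al j) := by
      apply Finset.sum_nonneg
      intro j _
      split_ifs
      · exact le_rfl
      · exact mul_nonneg (h0 i j) (hnn j)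
    linarith [hal1 i]
  · intro i
    linarith [hal1 i]

end ANG
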