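import Pool.Agent.ANG.Rt

/-! # ANG: the certificate of a chamber system -/

set_option autoImplicit false

namespace ANG

variable {G V I T : Type*} [Group G] [MulAction G V] [Fintype I] [Fintype T]
  {rel : I → V → V → Prop}

/-- the algebra of the global inequality -/
lemma alg_ineq (al : I → ℝ) (b : T → I → ℝ) (r : T → ℝ) (d : I → ℝ)
    (hd : ∀ i, d i = al i ^ 2 - ∑ t, b t i ^ 2)
    (hcross : ∀ i j, i ≠ j → ∑ t, b t i * b t j = al i * al j)
    (U Γ s : I → ℝ) (Φ : T → ℝ) (hU : ∀ i, U i ^ 2 = Γ i + s i)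
    (hloc : ∀ t, 0 ≤ (∑ i, b t i * U i) ^ 2 - r t * ∑ i, b t i * Γ i + Φ t) :
    ∑ i, (∑ t, r t * b t i + d i) * Γ i
      ≤ (∑ i, al i * U i) ^ 2 + (∑ t, Φ t - ∑ i, d i * s i) := by
  classical
  have h1 : (∑ i, al i * U i) ^ 2 = ∑ t, (∑ i, b t i * U i) ^ 2 + ∑ i, d i * U i ^ 2 := by
    have e1 : (∑ i, al i * U i) ^ 2 = ∑ i, ∑ j, (al i * al j) * (U i * U j) := by
      rw [sq, Finset.sum_mul_sum]
      exact Finset.sum_congr rfl (fun i _ => Finset.sum_congr rfl (fun j _ => by ring))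
    have e2 : ∀ t, (∑ i, b t i * U i) ^ 2 = ∑ i, ∑ j, (b t i * b t j) * (U i * U j) := by
      intro t
      rw [sq, Finset.sum_mul_sum]
      exact Finset.sum_congr rfl (fun i _ => Finset.sum_congr rfl (fun j _ => by ring))
    have e3 : ∑ t, ∑ i, ∑ j, (b t i * b t j) * (U i * U j)
        = ∑ i, ∑ j, (∑ t, b t i * b t j) * (U i * U j) := by
      rw [Finset.sum_comm]
      apply Finset.sum_congr rfl
      intro i _
      rw [Finset.sum_comm]
      apply Finset.sum_congr rfl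
      intro j _
      rw [Finset.sum_mul]
    rw [e1, Finset.sum_congr rfl (fun t _ => e2 t), e3, ← Finset.sum_add_distrib]
    apply Finset.sum_congr rfl
    intro i _
    have e4 : d i * U i ^ 2 = ∑ j, (if i = j then d i else 0) * (U i * U j) := by
      rw [Finset.sum_eq_single i]
      · rw [if_pos rfl]
        ring
      · intro j _ hj
        rw [if_neg (Ne.symm hj), zero_mul]
      · intro h
        exact absurd (Finset.mem_univ i) h
    rw [e4, ← Finset.sum_add_distrib]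
    apply Finset.sum_congr rfl
    intro j _
    rw [← add_mul]
    congr 1
    by_cases h : i = j
    · subst h
      rw [if_pos rfl, hd]
      have e5 : ∑ t, b t i * b t i = ∑ t, b t i ^ 2 :=
        Finset.sum_congr rfl (fun t _ => by ring)
      rw [e5]
      ring
    · rw [if_neg h, add_zero, hcross i j h]
  have h2 : ∑ t, (r t * ∑ i, b t i * Γ i) ≤ ∑ t, ((∑ i, b t i * U i) ^ 2 + Φ t) :=
    Finset.sum_le_sum (fun t _ => by linarith [hloc t])
  have h3 : ∑ t, (r t * ∑ i, b t i * Γ i) = ∑ i, (∑ t, r t * b t i) * Γ i := by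
    have : ∀ t, r t * ∑ i, b t i * Γ i = ∑ i, r t * b t i * Γ i := by
      intro t
      rw [Finset.mul_sum]
      exact Finset.sum_congr rfl (fun i _ => by ring)
    rw [Finset.sum_congr rfl (fun t _ => this t), Finset.sum_comm]
    exact Finset.sum_congr rfl (fun i _ => by rw [Finset.sum_mul])
  have h4 : ∑ i, d i * U i ^ 2 = ∑ i, d i * Γ i + ∑ i, d i * s i := by
    rw [← Finset.sum_add_distrib]
    exact Finset.sum_congr rfl (fun i _ => by rw [hU]; ring)
  have h5 : ∑ i, (∑ t, r t * b t i + d i) * Γ i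
      = ∑ i, (∑ t, r t * b t i) * Γ i + ∑ i, d i * Γ i := by
    rw [← Finset.sum_add_distrib]
    exact Finset.sum_congr rfl (fun i _ => by ring)
  rw [Finset.sum_add_distrib, h3] at h2
  rw [h5, h1, h4]
  linarith

/-- the certificate tensor -/
noncomputable def Ph (rel : I → V → V → Prop) (b : T → I → ℝ)
    (hfin : ∀ t c, Finite (RT rel (b t) c)) (r : T → ℝ) (d : I → ℝ) (v x y : V) : ℝ :=
  ∑ t, phi (hfin t) (r t) v x y - ∑ i, d i * sgi rel i v x y

/-- a finite set containing all classes and residues of a chamber -/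
noncomputable def big (hC : Ch G rel) (b : T → I → ℝ) (hfin : ∀ t c, Finite (RT rel (b t) c))
    (v : V) : Finset V :=
  ((Set.finite_iUnion (fun i => hC.fin i v)).union
    (Set.finite_iUnion (fun t => (Set.finite_coe_iff.1 (hfin t v) : {d | Rs rel (b t) v d}.Finite)))).toFinset

lemma mem_big (hC : Ch G rel) (b : T → I → ℝ) (hfin : ∀ t c, Finite (RT rel (b t) c))
    (v d : V) : d ∈ big hC b hfin v ↔ (∃ i, rel i v d) ∨ (∃ t, Rs rel (b t) v d) := by
  unfold big
  rw [Set.Finite.mem_toFinset]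
  simp only [Set.mem_union, Set.mem_iUnion]
  rfl

section cert

variable {b : T → I → ℝ} {lam r : T → ℝ} {hfin : ∀ t c, Finite (RT rel (b t) c)} {d : I → ℝ}

lemma Ph_swap12 (hC : Ch G rel) (hgap : ∀ t c, @Gap _ (fi (hfin t) c) (wR rel (b t) c) (lam t))
    (hr : ∀ t, 2 * r t < 3 * lam t) (v x y : V) :
    Ph rel b hfin r d v x y = Ph rel b hfin r d x v y := by
  unfold Ph
  congr 1
  · exact Finset.sum_congr rfl (fun t _ => phi_swap12 hC (hfin t) (hgap t) (hr t) v x y)
  · exact Finset.sum_congr rfl (fun i _ => by rw [sgi_swap12 hC])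

lemma Ph_swap23 (hC : Ch G rel) (hgap : ∀ t c, @Gap _ (fi (hfin t) c) (wR rel (b t) c) (lam t))
    (hr : ∀ t, 2 * r t < 3 * lam t) (v x y : V) :
    Ph rel b hfin r d v x y = Ph rel b hfin r d v y x := by
  unfold Ph
  congr 1
  · exact Finset.sum_congr rfl (fun t _ => phi_swap23 hC (hfin t) (hgap t) (hr t) v x y)
  · exact Finset.sum_congr rfl (fun i _ => by rw [sgi_swap23])

lemma Ph_smul (hC : Ch G rel) (hgap : ∀ t c, @Gap _ (fi (hfin t) c) (wR rel (b t) c) (lam t))
    (hr : ∀ t, 2 * r t < 3 * lam t) (g : G) (v x y : V) :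
    Ph rel b hfin r d (g • v) (g • x) (g • y) = Ph rel b hfin r d v x y := by
  unfold Ph
  congr 1
  · exact Finset.sum_congr rfl (fun t _ => phi_smul hC (hfin t) (hgap t) (hr t) g v x y)
  · exact Finset.sum_congr rfl (fun i _ => by rw [sgi_smul hC])

lemma Ph_support (hC : Ch G rel) {v x y : V} (h : Ph rel b hfin r d v x y ≠ 0) :
    x ∈ big hC b hfin v ∧ y ∈ big hC b hfin v := by
  by_contra hn
  apply h
  have h1 : ∀ t, phi (hfin t) (r t) v x y = 0 := by
    intro t
    by_contra h'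
    obtain ⟨hx, hy⟩ := phi_support (hfin t) (r t) h'
    exact hn ⟨(mem_big hC b hfin v x).2 (Or.inr ⟨t, hx⟩),
      (mem_big hC b hfin v y).2 (Or.inr ⟨t, hy⟩)⟩
  have h2 : ∀ i, sgi rel i v x y = 0 := by
    intro i
    by_contra h'
    obtain ⟨hx, hy⟩ := sgi_support hC h'
    exact hn ⟨(mem_big hC b hfin v x).2 (Or.inl ⟨i, hx⟩),
      (mem_big hC b hfin v y).2 (Or.inl ⟨i, hy⟩)⟩
  unfold Ph
  simp only [h1, h2, mul_zero, Finset.sum_const_zero, sub_zero]

lemma Ph_fin (hC : Ch G rel) (v : V) :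
    {q : V × V | Ph rel b hfin r d v q.1 q.2 ≠ 0}.Finite := by
  apply ((big hC b hfin v) ×ˢ (big hC b hfin v)).finite_toSet.subset
  intro q hq
  obtain ⟨h1, h2⟩ := Ph_support hC hq
  rw [Finset.mem_coe, Finset.mem_product]
  exact ⟨h1, h2⟩

lemma Ph_mg (hC : Ch G rel) (hgap : ∀ t c, @Gap _ (fi (hfin t) c) (wR rel (b t) c) (lam t))
    (hr : ∀ t, 2 * r t < 3 * lam t) (v x : V) : ∑ᶠ y, Ph rel b hfin r d v x y = 0 := by
  have h1 : ∑ᶠ y, Ph rel b hfin r d v x y = ∑ y ∈ big hC b hfin v, Ph rel b hfin r d v x y := by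
    apply finsum_eq_sum_of_support_subset
    intro y hy
    exact (Ph_support hC hy).2
  rw [h1]
  unfold Ph
  rw [Finset.sum_sub_distrib, Finset.sum_comm,
    Finset.sum_comm (f := fun y i => d i * sgi rel i v x y)]
  have h2 : ∀ t, ∑ y ∈ big hC b hfin v, phi (hfin t) (r t) v x y = 0 := fun t =>
    phi_mg hC (hfin t) (hgap t) (hr t) v x _ (fun e he => (mem_big hC b hfin v e).2 (Or.inr ⟨t, he⟩))
  have h3 : ∀ i, ∑ y ∈ big hC b hfin v, d i * sgi rel i v x y = 0 := by
    intro i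
    rw [← Finset.mul_sum, sgi_mg hC i v x _
      (fun e he => (mem_big hC b hfin v e).2 (Or.inl ⟨i, he⟩)), mul_zero]
  simp only [h2, h3, Finset.sum_const_zero, sub_zero]

theorem Ph_ineq (hC : Ch G rel) (hb : ∀ t i, 0 ≤ b t i)
    (hgap : ∀ t c, @Gap _ (fi (hfin t) c) (wR rel (b t) c) (lam t))
    (hr0 : ∀ t, 0 ≤ r t) (hr : ∀ t, r t < lam t) {al : I → ℝ}
    (hd : ∀ i, d i = al i ^ 2 - ∑ t, b t i ^ 2)
    (hcross : ∀ i j, i ≠ j → ∑ t, b t i * b t j = al i * al j) {κ : ℝ}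
    (hκ : ∀ i, κ * (2 * al i) ≤ ∑ t, r t * b t i + d i) (v : V) (f : V → ℝ) :
    κ * ∑ᶠ u, W rel al v u * (f u - f v) ^ 2
      ≤ 1 * (∑ᶠ u, W rel al v u * (f u - f v)) ^ 2
        + ∑ᶠ q : V × V, Ph rel b hfin r d v q.1 q.2 * (f q.1 * f q.2) := by
  classical
  set S := big hC b hfin v with hSdef
  have hSi : ∀ i e, rel i v e → e ∈ S := fun i e he => (mem_big hC b hfin v e).2 (Or.inl ⟨i, he⟩)
  have hSt : ∀ t e, Rs rel (b t) v e → e ∈ S := fun t e he =>
    (mem_big hC b hfin v e).2 (Or.inr ⟨t, he⟩)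
  have hWS : ∀ (g : V → ℝ), ∑ᶠ u, W rel al v u * g u = ∑ u ∈ S, W rel al v u * g u := by
    intro g
    apply finsum_eq_sum_of_support_subset
    intro u hu
    simp only [Function.mem_support, ne_eq, mul_eq_zero, not_or] at hu
    obtain ⟨i, _, hi⟩ := Finset.exists_ne_zero_of_sum_ne_zero hu.1
    exact hSi i u (rel_of_P (right_ne_zero_of_mul hi))
  have hPh : ∑ᶠ q : V × V, Ph rel b hfin r d v q.1 q.2 * (f q.1 * f q.2)
      = ∑ x ∈ S, ∑ y ∈ S, Ph rel b hfin r d v x y * (f x * f y) := by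
    rw [← Finset.sum_product']
    apply finsum_eq_sum_of_support_subset
    intro q hq
    simp only [Function.mem_support, ne_eq, mul_eq_zero, not_or] at hq
    obtain ⟨h1, h2⟩ := Ph_support hC hq.1
    rw [Finset.mem_coe, Finset.mem_product]
    exact ⟨h1, h2⟩
  rw [hWS (fun u => (f u - f v) ^ 2), hWS (fun u => f u - f v), hPh]
  -- local quantities
  set U : I → ℝ := fun i => ∑ e ∈ S, P rel i v e * (f v - f e) with hU
  set Γ : I → ℝ := fun i => 1 / 2 * ∑ e ∈ S, P rel i v e * (f e - f v) ^ 2 with hΓ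
  set s : I → ℝ := fun i => ∑ x ∈ S, ∑ y ∈ S, sgi rel i v x y * (f x * f y) with hs
  set Φ : T → ℝ := fun t => ∑ x ∈ S, ∑ y ∈ S, phi (hfin t) (r t) v x y * (f x * f y) with hΦ
  have hL : ∀ β : I → ℝ, ∑ e ∈ S, W rel β v e * (f v - f e) = ∑ i, β i * U i := by
    intro β
    have h1 : ∀ e, W rel β v e * (f v - f e) = ∑ i, β i * (P rel i v e * (f v - f e)) := by
      intro e
      unfold W
      rw [Finset.sum_mul]
      exact Finset.sum_congr rfl (fun i _ => by ring)
    rw [Finset.sum_congr rfl (fun e _ => h1 e), Finset.sum_comm]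
    exact Finset.sum_congr rfl (fun i _ => by rw [← Finset.mul_sum])
  have hE : ∀ β : I → ℝ, 1 / 2 * ∑ e ∈ S, W rel β v e * (f e - f v) ^ 2 = ∑ i, β i * Γ i := by
    intro β
    have h1 : ∀ e, W rel β v e * (f e - f v) ^ 2 = ∑ i, β i * (P rel i v e * (f e - f v) ^ 2) := by
      intro e
      unfold W
      rw [Finset.sum_mul]
      exact Finset.sum_congr rfl (fun i _ => by ring)
    rw [Finset.sum_congr rfl (fun e _ => h1 e), Finset.sum_comm, Finset.mul_sum]
    apply Finset.sum_congr rfl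
    intro i _
    rw [← Finset.mul_sum, hΓ]
    ring
  have hUs : ∀ i, U i ^ 2 = Γ i + s i := fun i => sgi_form hC i v S (hSi i) f
  have hloc : ∀ t, 0 ≤ (∑ i, b t i * U i) ^ 2 - r t * ∑ i, b t i * Γ i + Φ t := by
    intro t
    have h1 := phi_ineq hC (hb t) (hfin t) (hgap t) (hr0 t) (hr t) v S (hSt t) f
    rw [hL (b t), hE (b t)] at h1
    exact h1
  have hmain := alg_ineq al b r d hd hcross U Γ s Φ hUs hloc
  have h1 : ∑ u ∈ S, W rel al v u * (f u - f v) = - ∑ i, al i * U i := by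
    rw [← hL al, ← Finset.sum_neg_distrib]
    exact Finset.sum_congr rfl (fun e _ => by ring)
  have h2 : ∑ x ∈ S, ∑ y ∈ S, Ph rel b hfin r d v x y * (f x * f y)
      = ∑ t, Φ t - ∑ i, d i * s i := by
    have e1 : ∀ x y, Ph rel b hfin r d v x y * (f x * f y)
        = ∑ t, phi (hfin t) (r t) v x y * (f x * f y)
          - ∑ i, d i * (sgi rel i v x y * (f x * f y)) := by
      intro x y
      unfold Ph
      rw [sub_mul, Finset.sum_mul, Finset.sum_mul]
      congr 1
      exact Finset.sum_congr rfl (fun i _ => by ring)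
    simp only [e1, Finset.sum_sub_distrib]
    congr 1
    · have sw : ∑ x ∈ S, ∑ y ∈ S, ∑ t, phi (hfin t) (r t) v x y * (f x * f y)
          = ∑ x ∈ S, ∑ t, ∑ y ∈ S, phi (hfin t) (r t) v x y * (f x * f y) :=
        Finset.sum_congr rfl (fun x _ => Finset.sum_comm)
      rw [sw, Finset.sum_comm]
    · have sw : ∑ x ∈ S, ∑ y ∈ S, ∑ i, d i * (sgi rel i v x y * (f x * f y))
          = ∑ x ∈ S, ∑ i, ∑ y ∈ S, d i * (sgi rel i v x y * (f x * f y)) :=
        Finset.sum_congr rfl (fun x _ => Finset.sum_comm)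
      rw [sw, Finset.sum_comm]
      apply Finset.sum_congr rfl
      intro i _
      rw [hs, Finset.mul_sum]
      exact Finset.sum_congr rfl (fun x _ => by rw [Finset.mul_sum])
  have h3 : κ * ∑ u ∈ S, W rel al v u * (f u - f v) ^ 2 = ∑ i, κ * (2 * al i) * Γ i := by
    have e1 : ∑ u ∈ S, W rel al v u * (f u - f v) ^ 2 = 2 * ∑ i, al i * Γ i := by
      rw [← hE al]
      ring
    rw [e1, Finset.mul_sum, Finset.mul_sum]
    exact Finset.sum_congr rfl (fun i _ => by ring)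
  have hΓ0 : ∀ i, 0 ≤ Γ i := by
    intro i
    rw [hΓ]
    apply mul_nonneg (by norm_num)
    exact Finset.sum_nonneg (fun e _ => mul_nonneg (P_nonneg rel i v e) (sq_nonneg _))
  have h4 : ∑ i, κ * (2 * al i) * Γ i ≤ ∑ i, (∑ t, r t * b t i + d i) * Γ i :=
    Finset.sum_le_sum (fun i _ => mul_le_mul_of_nonneg_right (hκ i) (hΓ0 i))
  rw [h1, h2, h3]
  nlinarith

end cert

end ANG
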