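import Pool.Agent.ANG.Pr

/-! # ANG: groups generated by finite subgroups -/

set_option autoImplicit false

open MulAction LGap

namespace ANG

variable {G I : Type*} [Group G]

/-- the chamber system of a family of subgroups -/
def gr (X : I → Subgroup G) (i : I) (c d : G) : Prop := c⁻¹ * d ∈ X i

lemma gr_ch (X : I → Subgroup G) (hX : ∀ i, Finite (X i)) : Ch G (gr X) := by
  refine ⟨?_, ?_, ?_⟩
  · intro i
    refine ⟨?_, ?_, ?_⟩
    · intro c
      show c⁻¹ * c ∈ X i
      rw [inv_mul_cancel]
      exact (X i).one_mem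
    · intro c d h
      show d⁻¹ * c ∈ X i
      have h1 := (X i).inv_mem h
      rwa [mul_inv_rev, inv_inv] at h1
    · intro c d e h h'
      show c⁻¹ * e ∈ X i
      have h1 := (X i).mul_mem h h'
      have h2 : c⁻¹ * d * (d⁻¹ * e) = c⁻¹ * e := by group
      rwa [h2] at h1
  · intro i g c d h
    show (g • c)⁻¹ * (g • d) ∈ X i
    have h2 : (g • c)⁻¹ * (g • d) = c⁻¹ * d := by
      rw [smul_eq_mul, smul_eq_mul]
      group
    rw [h2]
    exact h
  · intro i c
    have h1 : {d | gr X i c d} = (fun x => c * x) '' (X i : Set G) := by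
      ext d
      constructor
      · intro h
        exact ⟨c⁻¹ * d, h, by group⟩
      · rintro ⟨x, hx, rfl⟩
        show c⁻¹ * (c * x) ∈ X i
        rwa [inv_mul_cancel_left]
    rw [h1]
    exact (Set.toFinite (X i : Set G)).image _

lemma path_symm (X : I → Subgroup G) (J : Set I) {c d : G}
    (h : Relation.ReflTransGen (fun a e => ∃ i ∈ J, gr X i a e) c d) :
    Relation.ReflTransGen (fun a e => ∃ i ∈ J, gr X i a e) d c := by
  induction h with
  | refl => exact Relation.ReflTransGen.refl
  | tail _ hbc ih =>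
    obtain ⟨i, hi, hr⟩ := hbc
    refine (Relation.ReflTransGen.single ⟨i, hi, ?_⟩).trans ih
    have h1 := (X i).inv_mem hr
    rwa [mul_inv_rev, inv_inv] at h1

/-- paths in the chamber system -/
lemma path_iff (X : I → Subgroup G) (J : Set I) (c d : G) :
    Relation.ReflTransGen (fun a e => ∃ i ∈ J, gr X i a e) c d ↔
      c⁻¹ * d ∈ ⨆ i ∈ J, X i := by
  constructor
  · intro h
    induction h with
    | refl =>
      rw [inv_mul_cancel]
      exact Subgroup.one_mem _
    | @tail a e _ hbc ih =>
      obtain ⟨i, hi, hr⟩ := hbc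
      have h1 : X i ≤ ⨆ i ∈ J, X i := le_iSup₂_of_le i hi le_rfl
      have h2 := Subgroup.mul_mem _ ih (h1 hr)
      have h3 : c⁻¹ * a * (a⁻¹ * e) = c⁻¹ * e := by group
      rwa [h3] at h2
  · intro h
    have key : ∀ x ∈ (⨆ i ∈ J, X i : Subgroup G), ∀ c : G,
        Relation.ReflTransGen (fun a e => ∃ i ∈ J, gr X i a e) c (c * x) := by
      intro x hx
      have h1 : (⨆ i ∈ J, X i : Subgroup G)
          = Subgroup.closure (⋃ i ∈ J, (X i : Set G)) := by
        rw [Subgroup.closure_iUnion]
        apply iSup_congr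
        intro i
        rw [Subgroup.closure_iUnion]
        apply iSup_congr
        intro _
        exact (Subgroup.closure_eq _).symm
      rw [h1] at hx
      induction hx using Subgroup.closure_induction with
      | mem y hy =>
        intro c
        simp only [Set.mem_iUnion] at hy
        obtain ⟨i, hi, hy⟩ := hy
        refine Relation.ReflTransGen.single ⟨i, hi, ?_⟩
        show c⁻¹ * (c * y) ∈ X i
        rw [inv_mul_cancel_left]
        exact hy
      | one =>
        intro c
        rw [mul_one]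
      | mul y z _ _ hy hz =>
        intro c
        rw [← mul_assoc]
        exact (hy c).trans (hz (c * y))
      | inv y _ hy =>
        intro c
        have h2 := hy (c * y⁻¹)
        rw [inv_mul_cancel_right] at h2
        exact path_symm X J h2
    have h2 := key _ h c
    rwa [mul_inv_cancel_left] at h2

theorem group_main [Fintype I] (X : I → Subgroup G) (hX : ∀ i, Finite (X i))
    (htop : ⨆ i, X i = ⊤) {ε : I → I → ℝ} (hs : ∀ i j, ε i j = ε j i) (h0 : ∀ i j, 0 ≤ ε i j)
    (hfin : ∀ i j, i ≠ j → Finite (X i ⊔ X j : Subgroup G))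
    (hang : ∀ (i j : I), i ≠ j → ∀ (f g : G → ℝ),
      (∀ h, ∀ x ∈ X i, f (h * x) = f h) → (∀ h, ∀ x ∈ X j, g (h * x) = g h) →
      ∑ᶠ h ∈ (X i ⊔ X j : Subgroup G), f h = 0 → ∑ᶠ h ∈ (X i ⊔ X j : Subgroup G), g h = 0 →
      2 * ∑ᶠ h ∈ (X i ⊔ X j : Subgroup G), f h * g h
        ≤ ε i j * (∑ᶠ h ∈ (X i ⊔ X j : Subgroup G), f h ^ 2
          + ∑ᶠ h ∈ (X i ⊔ X j : Subgroup G), g h ^ 2))
    (hpd : ∀ x : I → ℝ, x ≠ 0 →
      ∑ i, ∑ j, (open Classical in if i = j then 0 else ε i j * x i * x j) < ∑ i, x i ^ 2)
    (K : Subgroup G) [K.FiniteIndex]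
    {Z : Type*} [LinearOrder Z] (ψ : K →* (Z ≃o Z)) : ψ = 1 := by
  have hsup : ∀ i j : I, (⨆ k ∈ ({i, j} : Set I), X k) = X i ⊔ X j := fun i j => iSup_pair
  have hres : ∀ (i j : I) (c : G), resid (gr X) {i, j} c
      = (fun h => c * h) '' ((X i ⊔ X j : Subgroup G) : Set G) := by
    intro i j c
    ext d
    constructor
    · intro h
      have h1 := (path_iff X {i, j} c d).1 h
      rw [hsup] at h1
      exact ⟨c⁻¹ * d, h1, by group⟩
    · rintro ⟨x, hx, rfl⟩
      apply (path_iff X {i, j} c (c * x)).2
      rw [hsup, inv_mul_cancel_left]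
      exact hx
  have hsum : ∀ (i j : I) (c : G) (f : G → ℝ), ∑ᶠ d ∈ resid (gr X) {i, j} c, f d
      = ∑ᶠ h ∈ (X i ⊔ X j : Subgroup G), f (c * h) := by
    intro i j c f
    rw [hres, finsum_mem_image (fun a _ b _ h => mul_left_cancel h)]
    rfl
  refine pairs_main (G := G) (V := G) (gr_ch X hX) ?_ ?_ ?_ hs h0 ?_ ?_ hpd K ψ
  · have : Subsingleton (Ty G G) := by
      constructor
      intro a b
      induction a using Quotient.inductionOn with
      | h a =>
        induction b using Quotient.inductionOn with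
        | h b =>
          apply Quotient.sound
          show a ∈ MulAction.orbit G b
          exact ⟨a * b⁻¹, by
            show (a * b⁻¹) • b = a
            rw [smul_eq_mul]
            group⟩
    exact Finite.of_subsingleton
  · intro v
    have : Subsingleton (MulAction.stabilizer G v) := by
      constructor
      rintro ⟨a, ha⟩ ⟨b, hb⟩
      apply Subtype.ext
      rw [MulAction.mem_stabilizer_iff, smul_eq_mul] at ha hb
      show a = b
      exact mul_right_cancel (ha.trans hb.symm)
    exact Finite.of_subsingleton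
  · intro v u
    have h1 : v⁻¹ * u ∈ ⨆ i ∈ (Set.univ : Set I), X i := by
      simp only [Set.mem_univ, iSup_pos, htop, Subgroup.mem_top]
    have h2 := (path_iff X Set.univ v u).2 h1
    clear h1
    induction h2 with
    | refl => exact Relation.ReflTransGen.refl
    | tail _ hbc ih =>
      obtain ⟨i, _, hi⟩ := hbc
      exact ih.tail ⟨i, hi⟩
  · intro i j c hij
    rw [hres]
    have := hfin i j hij
    exact (Set.toFinite ((X i ⊔ X j : Subgroup G) : Set G)).image _
  · intro i j c hij f g hf hg hf0 hg0
    rw [hsum] at hf0 hg0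
    rw [hsum i j c (fun d => f d * g d), hsum i j c (fun d => f d ^ 2),
      hsum i j c (fun d => g d ^ 2)]
    apply hang i j hij (fun h => f (c * h)) (fun h => g (c * h)) _ _ hf0 hg0
    · intro h x hx
      show f (c * (h * x)) = f (c * h)
      apply (hf _ _ _).symm
      show (c * h)⁻¹ * (c * (h * x)) ∈ X i
      have h3 : (c * h)⁻¹ * (c * (h * x)) = x := by group
      rw [h3]
      exact hx
    · intro h x hx
      show g (c * (h * x)) = g (c * h)
      apply (hg _ _ _).symm
      show (c * h)⁻¹ * (c * (h * x)) ∈ X j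
      have h3 : (c * h)⁻¹ * (c * (h * x)) = x := by group
      rw [h3]
      exact hx

end ANG
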