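import Pool.Agent.ANG.Ex

/-! # ANG: the cubic Poincaré inequality on a finite weighted graph -/

set_option autoImplicit false

namespace ANG

variable {R : Type*} [Fintype R] {w : R → R → ℝ}

lemma Q_addt (t t' : R → R → R → ℝ) (c : R) (X Z : R → ℝ) :
    Q (fun c x y => t c x y + t' c x y) c X Z = Q t c X Z + Q t' c X Z := by
  unfold Q
  rw [← Finset.sum_add_distrib]
  apply Finset.sum_congr rfl
  intro x _
  rw [← Finset.sum_add_distrib]
  exact Finset.sum_congr rfl (fun y _ => by ring)

/-- the forms of `K t` -/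
lemma Q_K (hws : ∀ c d, w c d = w d c) (r : ℝ) {t : R → R → R → ℝ}
    (ht : ∀ c x y, t c x y = t c y x) (c : R) (X : R → ℝ) :
    Q (K w r t) c X X
      = Dl w (fun d => Q t d X X) c + 2 * Q t c X (Dl w X) - 2 * r * Q t c X X := by
  have e1 : ∑ x, ∑ y, Dl w (fun d => t d x y) c * (X x * X y) = Dl w (fun d => Q t d X X) c := by
    unfold Q
    rw [Dl_sumf w Finset.univ (fun x d => ∑ y, t d x y * (X x * X y)) c]
    apply Finset.sum_congr rfl
    intro x _
    rw [Dl_sumf w Finset.univ (fun y d => t d x y * (X x * X y)) c]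
    apply Finset.sum_congr rfl
    intro y _
    have h : (fun d => t d x y * (X x * X y)) = fun d => (X x * X y) * t d x y :=
      funext (fun d => by ring)
    rw [h, Dl_smul]
    ring
  have e3 : ∑ x, ∑ y, Dl w (fun d => t c x d) y * (X x * X y) = Q t c X (Dl w X) := by
    unfold Q
    apply Finset.sum_congr rfl
    intro x _
    have h1 : ∑ y, Dl w (fun d => t c x d) y * (X x * X y)
        = X x * ∑ y, Dl w (fun d => t c x d) y * X y := by
      rw [Finset.mul_sum]
      exact Finset.sum_congr rfl (fun y _ => by ring)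
    rw [h1, Dl_adj hws (fun d => t c x d) X, Finset.mul_sum]
    exact Finset.sum_congr rfl (fun y _ => by ring)
  have e2 : ∑ x, ∑ y, Dl w (fun d => t c d y) x * (X x * X y) = Q t c X (Dl w X) := by
    rw [← e3, Finset.sum_comm]
    apply Finset.sum_congr rfl
    intro y _
    apply Finset.sum_congr rfl
    intro x _
    have h : (fun d => t c d y) = fun d => t c y d := funext (fun d => ht c d y)
    rw [h]
    ring
  have hsplit : Q (K w r t) c X X
      = (∑ x, ∑ y, Dl w (fun d => t d x y) c * (X x * X y))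
        + (∑ x, ∑ y, Dl w (fun d => t c d y) x * (X x * X y))
        + (∑ x, ∑ y, Dl w (fun d => t c x d) y * (X x * X y)) - 2 * r * Q t c X X := by
    unfold Q
    rw [← Finset.sum_add_distrib, ← Finset.sum_add_distrib, Finset.mul_sum,
      ← Finset.sum_sub_distrib]
    apply Finset.sum_congr rfl
    intro x _
    rw [← Finset.sum_add_distrib, ← Finset.sum_add_distrib, Finset.mul_sum,
      ← Finset.sum_sub_distrib]
    apply Finset.sum_congr rfl
    intro y _
    unfold K
    ring
  rw [hsplit, e1, e2, e3]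
  ring

open Classical in
/-- the tensor of the forms `(Δ X)² - r Γ(X)` -/
noncomputable def Nt (w : R → R → ℝ) (r : ℝ) (c x y : R) : ℝ :=
  Dl w (Pi.single x 1) c * Dl w (Pi.single y 1) c
    - r * Gm w (Pi.single x 1) (Pi.single y 1) c

lemma Nt_symm (w : R → R → ℝ) (r : ℝ) (c x y : R) : Nt w r c x y = Nt w r c y x := by
  unfold Nt
  rw [Gm_symm]
  ring

lemma Q_Nt (w : R → R → ℝ) (r : ℝ) (c : R) (X Z : R → ℝ) :
    Q (Nt w r) c X Z = Dl w X c * Dl w Z c - r * Gm w X Z c := by
  classical
  have h1 : Dl w X c * Dl w Z c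
      = ∑ x, ∑ y, Dl w (Pi.single x 1) c * Dl w (Pi.single y 1) c * (X x * Z y) := by
    rw [Dl_eq_sum w X c, Dl_eq_sum w Z c, Finset.sum_mul_sum]
    exact Finset.sum_congr rfl (fun x _ => Finset.sum_congr rfl (fun y _ => by ring))
  rw [h1, Gm_eq_sum w X Z c, Finset.mul_sum, ← Finset.sum_sub_distrib]
  unfold Q Nt
  apply Finset.sum_congr rfl
  intro x _
  rw [Finset.mul_sum, ← Finset.sum_sub_distrib]
  exact Finset.sum_congr rfl (fun y _ => by ring)

lemma Nt_mg (w : R → R → ℝ) (r : ℝ) (c x : R) : ∑ y, Nt w r c x y = 0 := by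
  classical
  have h1 : ∑ y, Nt w r c x y = Q (Nt w r) c (Pi.single x 1) (fun _ => 1) := by
    unfold Q
    rw [Finset.sum_comm]
    apply Finset.sum_congr rfl
    intro y _
    rw [Finset.sum_eq_single x]
    · simp
    · intro b _ hb
      rw [Pi.single_eq_of_ne hb]
      ring
    · intro h
      exact absurd (Finset.mem_univ x) h
  rw [h1, Q_Nt, Dl_const, Gm_symm, Gm_const_left]
  ring

/-- the cubic Poincaré inequality -/
theorem local_ineq (hw0 : ∀ c d, 0 ≤ w c d) (hws : ∀ c d, w c d = w d c) {lam r : ℝ}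
    (hgap : Gap w lam) (hr0 : 0 ≤ r) (hr : r < lam) (c : R) (X : R → ℝ) :
    0 ≤ Dl w X c ^ 2 - r * Gm w X X c + Q (th w r) c X X := by
  classical
  obtain ⟨hth, hKth⟩ := th_spec (r := r) hws hgap (by linarith)
  have hsym : ∀ c x y, Nt w r c x y + th w r c x y = Nt w r c y x + th w r c y x := by
    intro c x y
    rw [Nt_symm, hth.s23]
  have hmg : ∀ c x, ∑ y, (Nt w r c x y + th w r c x y) = 0 := by
    intro c x
    rw [Finset.sum_add_distrib, Nt_mg, hth.mg, add_zero]
  have hform : ∀ (c : R) (X Z : R → ℝ), Q (fun c x y => Nt w r c x y + th w r c x y) c X Z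
      = Dl w X c * Dl w Z c - r * Gm w X Z c + Q (th w r) c X Z := by
    intro c X Z
    rw [Q_addt, Q_Nt]
  have hK : ∀ (c : R) (X : R → ℝ),
      0 ≤ Dl w (fun d => Q (fun c x y => Nt w r c x y + th w r c x y) d X X) c
        + 2 * Q (fun c x y => Nt w r c x y + th w r c x y) c X (Dl w X)
        - 2 * r * Q (fun c x y => Nt w r c x y + th w r c x y) c X X := by
    intro c X
    have h1 := Q_K hws r hth.s23 c X
    have h2 : Q (K w r (th w r)) c X X = - Psi w r (Pi.single c 1) X X := by
      rw [← Q_sg]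
      unfold Q
      rw [← Finset.sum_neg_distrib]
      apply Finset.sum_congr rfl
      intro x _
      rw [← Finset.sum_neg_distrib]
      apply Finset.sum_congr rfl
      intro y _
      rw [hKth]
      ring
    rw [h2, Psi_single hws] at h1
    have h3 : Dl w (fun d => Q (fun c x y => Nt w r c x y + th w r c x y) d X X) c
        = Dl w (fun d => Dl w X d ^ 2) c - r * Dl w (fun d => Gm w X X d) c
          + Dl w (fun d => Q (th w r) d X X) c := by
      rw [← Dl_smul w r (fun d => Gm w X X d) c, ← Dl_sub w (fun d => Dl w X d ^ 2),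
        ← Dl_add w (fun d => Dl w X d ^ 2 - r * Gm w X X d)]
      congr 1
      funext d
      rw [hform]
      ring
    rw [h3, hform, hform]
    have h4 := two_Gm w (Dl w X) (Dl w X) c
    have h5 : (fun d => Dl w X d * Dl w X d) = fun d => Dl w X d ^ 2 := funext (fun d => by ring)
    rw [h5] at h4
    have h6 := Gm_nonneg hw0 (fun d => Dl w X d - r * X d) c
    rw [Gm_sub_smul w X (Dl w X) r c] at h6
    nlinarith
  have hfin := max_principle hw0 hws hgap hr (t := fun c x y => Nt w r c x y + th w r c x y)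
    hsym hmg hK c X
  rw [hform] at hfin
  linarith [sq (Dl w X c)]

/-- the potential is natural with respect to isomorphisms of weighted graphs -/
theorem th_equiv {R' : Type*} [Fintype R'] {w' : R' → R' → ℝ}
    (hws : ∀ c d, w c d = w d c) {lam r : ℝ} (hgap : Gap w lam) (hr : 2 * r < 3 * lam)
    (e : R ≃ R') (he : ∀ c d, w' (e c) (e d) = w c d) (c x y : R) :
    th w' r (e c) (e x) (e y) = th w r c x y := by
  classical
  have hD : ∀ (F : R' → ℝ) (c : R), Dl w' F (e c) = Dl w (fun d => F (e d)) c := by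
    intro F c
    unfold Dl
    rw [← Equiv.sum_comp e]
    exact Finset.sum_congr rfl (fun d _ => by rw [he])
  have hG : ∀ (F F' : R' → ℝ) (c : R),
      Gm w' F F' (e c) = Gm w (fun d => F (e d)) (fun d => F' (e d)) c := by
    intro F F' c
    unfold Gm
    rw [← Equiv.sum_comp e]
    congr 1
    exact Finset.sum_congr rfl (fun d _ => by rw [he])
  have hws' : ∀ c d, w' c d = w' d c := by
    intro c d
    rw [← e.apply_symm_apply c, ← e.apply_symm_apply d, he, he, hws]
  have hgap' : Gap w' lam := by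
    intro F hF
    have h1 := hgap (fun d => F (e d)) (by rw [Equiv.sum_comp e F]; exact hF)
    rw [Equiv.sum_comp e (fun d => F d ^ 2)] at h1
    have h2 : ∑ c, F c * Dl w' F c = ∑ c, F (e c) * Dl w (fun d => F (e d)) c := by
      rw [← Equiv.sum_comp e]
      exact Finset.sum_congr rfl (fun c _ => by rw [hD])
    rw [h2]
    exact h1
  obtain ⟨h1, h2⟩ := th_spec (r := r) hws hgap hr
  obtain ⟨h1', h2'⟩ := th_spec (r := r) hws' hgap' hr
  have hs : ∀ (x : R), (fun d => (Pi.single (e x) (1 : ℝ) : R' → ℝ) (e d)) = Pi.single x 1 := by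
    intro x
    funext d
    by_cases h : d = x
    · subst h
      simp
    · rw [Pi.single_eq_of_ne h, Pi.single_eq_of_ne (fun h' => h (e.injective h'))]
  have hsg : ∀ c x y, sg w' r (e c) (e x) (e y) = sg w r c x y := by
    intro c x y
    unfold sg Psi
    congr 1
    · congr 1
      rw [← Equiv.sum_comp e]
      exact Finset.sum_congr rfl (fun d _ => by rw [hD, hD, hD, hs, hs, hs])
    · congr 1
      rw [← Equiv.sum_comp e]
      exact Finset.sum_congr rfl (fun d _ => by rw [hD, hD, hD, hG, hG, hG, hs, hs, hs])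
  have hS : S0 (fun c x y => th w' r (e c) (e x) (e y)) := by
    refine ⟨fun c x y => h1'.s12 _ _ _, fun c x y => h1'.s23 _ _ _, ?_⟩
    intro c x
    show ∑ y, th w' r (e c) (e x) (e y) = 0
    rw [Equiv.sum_comp e (fun y => th w' r (e c) (e x) y)]
    exact h1'.mg _ _
  have huniq := K_unique hws hgap hr hS h1 (by
    intro c x y
    rw [h2]
    have h3 : K w r (fun c x y => th w' r (e c) (e x) (e y)) c x y
        = K w' r (th w' r) (e c) (e x) (e y) := by
      unfold K
      rw [hD (fun d => th w' r d (e x) (e y)), hD (fun d => th w' r (e c) d (e y)),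
        hD (fun d => th w' r (e c) (e x) d)]
    rw [h3, h2', hsg])
  exact congrFun (congrFun (congrFun huniq c) x) y

end ANG
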