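import Pool.Agent.ANG.Alg

/-! # ANG: the maximum principle -/

set_option autoImplicit false

namespace ANG

variable {R : Type*} [Fintype R] {w : R → R → ℝ}

lemma Q_add_left (t : R → R → R → ℝ) (c : R) (X X' Z : R → ℝ) :
    Q t c (fun d => X d + X' d) Z = Q t c X Z + Q t c X' Z := by
  unfold Q
  rw [← Finset.sum_add_distrib]
  apply Finset.sum_congr rfl
  intro x _
  rw [← Finset.sum_add_distrib]
  exact Finset.sum_congr rfl (fun y _ => by ring)

lemma Q_smul_left (t : R → R → R → ℝ) (c : R) (a : ℝ) (X Z : R → ℝ) :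
    Q t c (fun d => a * X d) Z = a * Q t c X Z := by
  unfold Q
  rw [Finset.mul_sum]
  apply Finset.sum_congr rfl
  intro x _
  rw [Finset.mul_sum]
  exact Finset.sum_congr rfl (fun y _ => by ring)

lemma Q_symm {t : R → R → R → ℝ} (ht : ∀ c x y, t c x y = t c y x) (c : R) (X Z : R → ℝ) :
    Q t c X Z = Q t c Z X := by
  unfold Q
  rw [Finset.sum_comm]
  apply Finset.sum_congr rfl
  intro y _
  apply Finset.sum_congr rfl
  intro x _
  rw [ht c x y]
  ring

lemma Q_const_left {t : R → R → R → ℝ} (ht : ∀ c x y, t c x y = t c y x)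
    (hm : ∀ c x, ∑ y, t c x y = 0) (c : R) (a : ℝ) (Z : R → ℝ) : Q t c (fun _ => a) Z = 0 := by
  rw [Q_symm ht]
  unfold Q
  apply Finset.sum_eq_zero
  intro x _
  have h : ∑ y, t c x y * (Z x * a) = (∑ y, t c x y) * (Z x * a) := by rw [Finset.sum_mul]
  rw [h, hm, zero_mul]

/-- shifting the argument by a constant does not change the form -/
lemma Q_shift {t : R → R → R → ℝ} (ht : ∀ c x y, t c x y = t c y x)
    (hm : ∀ c x, ∑ y, t c x y = 0) (c : R) (a : ℝ) (X : R → ℝ) :
    Q t c (fun d => X d + a) (fun d => X d + a) = Q t c X X := by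
  have h1 : Q t c (fun d => X d + a) (fun d => X d + a)
      = Q t c X (fun d => X d + a) + Q t c (fun _ => a) (fun d => X d + a) :=
    Q_add_left t c X (fun _ => a) _
  rw [h1, Q_const_left ht hm, add_zero, Q_symm ht]
  have h2 : Q t c (fun d => X d + a) X = Q t c X X + Q t c (fun _ => a) X :=
    Q_add_left t c X (fun _ => a) X
  rw [h2, Q_const_left ht hm, add_zero]

/-- the maximum principle -/
theorem max_principle (hw0 : ∀ c d, 0 ≤ w c d) (hws : ∀ c d, w c d = w d c) {lam r : ℝ}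
    (hgap : Gap w lam) (hr : r < lam) {t : R → R → R → ℝ} (ht : ∀ c x y, t c x y = t c y x)
    (hm : ∀ c x, ∑ y, t c x y = 0)
    (hK : ∀ (c : R) (X : R → ℝ),
      0 ≤ Dl w (fun d => Q t d X X) c + 2 * Q t c X (Dl w X) - 2 * r * Q t c X X)
    (c : R) (X : R → ℝ) : 0 ≤ Q t c X X := by
  by_contra hneg
  push Not at hneg
  -- the unit sphere in the space of mean zero functions
  set S : Set (R → ℝ) := {Z | ∑ d, Z d = 0 ∧ ∑ d, Z d ^ 2 = 1} with hS
  have hcard : 0 < (Fintype.card R : ℝ) := by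
    have : 0 < Fintype.card R := Fintype.card_pos_iff.2 ⟨c⟩
    exact_mod_cast this
  -- normalisation
  set a : ℝ := - (∑ d, X d) / Fintype.card R with ha
  set X1 : R → ℝ := fun d => X d + a with hX1
  have hX1s : ∑ d, X1 d = 0 := by
    rw [hX1]
    simp only [Finset.sum_add_distrib, Finset.sum_const, Finset.card_univ, nsmul_eq_mul]
    rw [ha]
    field_simp
    ring
  have hX1Q : Q t c X1 X1 = Q t c X X := Q_shift ht hm c a X
  have hX1n : 0 < ∑ d, X1 d ^ 2 := by
    rcases (Finset.sum_nonneg (fun d _ => sq_nonneg (X1 d)) : 0 ≤ ∑ d, X1 d ^ 2).lt_or_eq with h | h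
    · exact h
    · exfalso
      have h0 : ∀ d, X1 d = 0 := by
        intro d
        have := (Finset.sum_eq_zero_iff_of_nonneg (fun d _ => sq_nonneg (X1 d))).1 h.symm d
          (Finset.mem_univ d)
        exact pow_eq_zero_iff (two_ne_zero) |>.1 this
      have h1 : X1 = fun _ => 0 := funext h0
      rw [h1, Q_const_left ht hm] at hX1Q
      rw [← hX1Q] at hneg
      exact lt_irrefl _ hneg
  have hscale : ∀ (Z : R → ℝ) (d : R) (b : ℝ),
      Q t d (fun e => b * Z e) (fun e => b * Z e) = b ^ 2 * Q t d Z Z := by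
    intro Z d b
    rw [Q_smul_left, Q_symm ht, Q_smul_left]
    ring
  set n : ℝ := Real.sqrt (∑ d, X1 d ^ 2) with hn
  have hn0 : 0 < n := Real.sqrt_pos.2 hX1n
  have hn2 : n ^ 2 = ∑ d, X1 d ^ 2 := Real.sq_sqrt hX1n.le
  have hX2 : (fun d => n⁻¹ * X1 d) ∈ S := by
    refine ⟨?_, ?_⟩
    · rw [← Finset.mul_sum, hX1s, mul_zero]
    · have : ∑ d, (n⁻¹ * X1 d) ^ 2 = n⁻¹ ^ 2 * ∑ d, X1 d ^ 2 := by
        rw [Finset.mul_sum]
        exact Finset.sum_congr rfl (fun d _ => by ring)
      rw [this, ← hn2]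
      field_simp
  have hcomp : IsCompact S := by
    apply Metric.isCompact_of_isClosed_isBounded
    · apply IsClosed.inter
      · exact isClosed_eq (by fun_prop) (by fun_prop)
      · exact isClosed_eq (by fun_prop) (by fun_prop)
    · rw [Metric.isBounded_iff_subset_closedBall (0 : R → ℝ)]
      refine ⟨1, ?_⟩
      intro Z hZ
      rw [mem_closedBall_zero_iff, pi_norm_le_iff_of_nonneg (by norm_num)]
      intro d
      have h1 : Z d ^ 2 ≤ 1 := by
        rw [← hZ.2]
        exact Finset.single_le_sum (f := fun d => Z d ^ 2) (fun d _ => sq_nonneg _)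
          (Finset.mem_univ d)
      rw [Real.norm_eq_abs]
      exact abs_le_one_iff_mul_self_le_one.2 (by nlinarith)
  have hQc : ∀ d, ContinuousOn (fun Z : R → ℝ => Q t d Z Z) S := by
    intro d
    apply Continuous.continuousOn
    unfold Q
    fun_prop
  have hmin : ∀ d, ∃ Z ∈ S, ∀ Z' ∈ S, Q t d Z Z ≤ Q t d Z' Z' := by
    intro d
    obtain ⟨Z, hZ, hZ'⟩ := hcomp.exists_isMinOn ⟨_, hX2⟩ (hQc d)
    exact ⟨Z, hZ, fun Z' h => hZ' h⟩
  choose Zm hZm hZmin using hmin
  have : Nonempty R := ⟨c⟩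
  obtain ⟨c0, hc0⟩ := Finite.exists_min (fun d => Q t d (Zm d) (Zm d))
  set Z := Zm c0 with hZdef
  have hZS : Z ∈ S := hZm c0
  set m : ℝ := - Q t c0 Z Z with hmdef
  have hmpos : 0 < m := by
    have h1 := hc0 c
    have h2 := hZmin c _ hX2
    have h3 : Q t c (fun d => n⁻¹ * X1 d) (fun d => n⁻¹ * X1 d) < 0 := by
      rw [hscale, hX1Q]
      exact mul_neg_of_pos_of_neg (by positivity) hneg
    have h4 : Q t c0 Z Z ≤ Q t c (Zm c) (Zm c) := h1
    rw [hmdef]
    linarith
  have hall : ∀ d, ∀ Z' ∈ S, -m ≤ Q t d Z' Z' := by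
    intro d Z' hZ'
    have h1 := hc0 d
    have h2 := hZmin d Z' hZ'
    have h4 : Q t c0 Z Z ≤ Q t d (Zm d) (Zm d) := h1
    rw [hmdef]
    linarith
  -- lower bound on all mean zero vectors
  have hlow : ∀ Z' : R → ℝ, ∑ d, Z' d = 0 → 0 ≤ Q t c0 Z' Z' + m * ∑ d, Z' d ^ 2 := by
    intro Z' hZ'
    rcases (Finset.sum_nonneg (fun d _ => sq_nonneg (Z' d)) : 0 ≤ ∑ d, Z' d ^ 2).lt_or_eq with h | h
    · set n' : ℝ := Real.sqrt (∑ d, Z' d ^ 2) with hn'
      have hn0' : 0 < n' := Real.sqrt_pos.2 h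
      have hn2' : n' ^ 2 = ∑ d, Z' d ^ 2 := Real.sq_sqrt h.le
      have h1 : (fun d => n'⁻¹ * Z' d) ∈ S := by
        refine ⟨?_, ?_⟩
        · rw [← Finset.mul_sum, hZ', mul_zero]
        · have : ∑ d, (n'⁻¹ * Z' d) ^ 2 = n'⁻¹ ^ 2 * ∑ d, Z' d ^ 2 := by
            rw [Finset.mul_sum]
            exact Finset.sum_congr rfl (fun d _ => by ring)
          rw [this, ← hn2']
          field_simp
      have h2 := hall c0 _ h1
      rw [hscale] at h2
      have h3 : n' ^ 2 * (-m) ≤ n' ^ 2 * (n'⁻¹ ^ 2 * Q t c0 Z' Z') :=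
        mul_le_mul_of_nonneg_left h2 (sq_nonneg _)
      have h4 : n' ^ 2 * (n'⁻¹ ^ 2 * Q t c0 Z' Z') = Q t c0 Z' Z' := by
        field_simp
      rw [h4] at h3
      rw [← hn2']
      linarith
    · have h0 : ∀ d, Z' d = 0 := by
        intro d
        have := (Finset.sum_eq_zero_iff_of_nonneg (fun d _ => sq_nonneg (Z' d))).1 h.symm d
          (Finset.mem_univ d)
        exact pow_eq_zero_iff (two_ne_zero) |>.1 this
      have h1 : Z' = fun _ => 0 := funext h0
      rw [h1, Q_const_left ht hm]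
      simp
  -- the minimiser is in the kernel
  have hker : ∀ Z' : R → ℝ, ∑ d, Z' d = 0 → Q t c0 Z Z' = - m * ∑ d, Z d * Z' d := by
    intro Z' hZ'
    set B : ℝ := Q t c0 Z Z' + m * ∑ d, Z d * Z' d with hB
    set q : ℝ := Q t c0 Z' Z' + m * ∑ d, Z' d ^ 2 with hq
    have hexp : ∀ s : ℝ, 0 ≤ 2 * s * B + s ^ 2 * q := by
      intro s
      have h1 : ∑ d, (Z d + s * Z' d) = 0 := by
        rw [Finset.sum_add_distrib, ← Finset.mul_sum, hZS.1, hZ']
        ring
      have h2 := hlow (fun d => Z d + s * Z' d) h1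
      have h3 : Q t c0 (fun d => Z d + s * Z' d) (fun d => Z d + s * Z' d)
          = Q t c0 Z Z + 2 * s * Q t c0 Z Z' + s ^ 2 * Q t c0 Z' Z' := by
        have e1 : Q t c0 (fun d => Z d + s * Z' d) (fun d => Z d + s * Z' d)
            = Q t c0 Z (fun d => Z d + s * Z' d)
              + Q t c0 (fun d => s * Z' d) (fun d => Z d + s * Z' d) :=
          Q_add_left t c0 Z (fun d => s * Z' d) _
        rw [e1, Q_smul_left, Q_symm ht c0 Z, Q_symm ht c0 Z' (fun d => Z d + s * Z' d)]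
        have e2 : ∀ W, Q t c0 (fun d => Z d + s * Z' d) W = Q t c0 Z W + s * Q t c0 Z' W := by
          intro W
          rw [← Q_smul_left]
          exact Q_add_left t c0 Z (fun d => s * Z' d) W
        rw [e2, e2, Q_symm ht c0 Z' Z]
        ring
      have h4 : ∑ d, (Z d + s * Z' d) ^ 2
          = ∑ d, Z d ^ 2 + 2 * s * ∑ d, Z d * Z' d + s ^ 2 * ∑ d, Z' d ^ 2 := by
        rw [Finset.mul_sum, Finset.mul_sum, ← Finset.sum_add_distrib, ← Finset.sum_add_distrib]
        exact Finset.sum_congr rfl (fun d _ => by ring)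
      rw [h3, h4, hZS.2] at h2
      have h5 : Q t c0 Z Z = - m := by rw [hmdef]; ring
      rw [h5] at h2
      rw [hB, hq]
      linarith
    have hB0 : B = 0 := by
      by_contra hne
      rcases le_or_gt q 0 with hq0 | hq0
      · have h1 := hexp (-B)
        have h2 : 0 < B ^ 2 := by positivity
        nlinarith [mul_nonneg (sq_nonneg B) (neg_nonneg.2 hq0)]
      · have h1 := hexp (-(B / q))
        have h2 : 2 * (-(B / q)) * B + (-(B / q)) ^ 2 * q = - (B ^ 2 / q) := by
          field_simp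
          ring
        rw [h2] at h1
        have h3 : 0 < B ^ 2 / q := by positivity
        linarith
    rw [hB] at hB0
    linarith
  -- conclusion at the minimum
  have h1 := hK c0 Z
  have h2 : Q t c0 Z (Dl w Z) = - m * ∑ d, Z d * Dl w Z d := hker _ (sum_Dl hws Z)
  have h3 : Dl w (fun d => Q t d Z Z) c0 ≤ 0 := by
    unfold Dl
    apply Finset.sum_nonpos
    intro d _
    have h4 := hall d Z hZS
    have h5 : Q t c0 Z Z = - m := by rw [hmdef]; ring
    show w c0 d * (Q t c0 Z Z - Q t d Z Z) ≤ 0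
    rw [h5]
    exact mul_nonpos_of_nonneg_of_nonpos (hw0 c0 d) (by linarith)
  have h4 := hgap Z hZS.1
  rw [hZS.2] at h4
  have h5 : Q t c0 Z Z = - m := by rw [hmdef]; ring
  rw [h2, h5] at h1
  have h6 := mul_le_mul_of_nonneg_left h4 hmpos.le
  have h7 : 0 < m * (lam - r) := mul_pos hmpos (by linarith)
  nlinarith

end ANG
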