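import Pool.Agent.ANG.Gp

/-! # ANG: from functions on the set of chambers to functions on residues -/

set_option autoImplicit false

namespace ANG

variable {G V I : Type*} [Group G] [MulAction G V] {rel : I → V → V → Prop} {b : I → ℝ}

lemma fsum_res (hfin : ∀ c, Finite (RT rel b c)) (c : V) (f : V → ℝ) :
    ∑ᶠ d ∈ {d | Rs rel b c d}, f d
      = @Finset.sum _ _ _ (@Finset.univ _ (fi hfin c)) (fun x : RT rel b c => f x.1) := by
  rw [← finsum_set_coe_eq_finsum_mem]
  exact @finsum_eq_sum_of_fintype _ _ _ (fi hfin c) (fun x : RT rel b c => f x.1)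

/-- average over a class -/
noncomputable def avV (rel : I → V → V → Prop) (i : I) (f : V → ℝ) (d : V) : ℝ :=
  (∑ᶠ e ∈ {e | rel i d e}, f e) / ({e | rel i d e}.ncard : ℝ)

lemma avV_eq (hC : Ch G rel) (i : I) (d : V) (S : Finset V) (hS : ∀ e, rel i d e → e ∈ S)
    (f : V → ℝ) : avV rel i f d = ∑ e ∈ S, P rel i d e * f e := by
  classical
  unfold avV
  rw [finsum_mem_eq_finite_toFinset_sum f (hC.fin i d)]
  have h1 : ∑ e ∈ S, P rel i d e * f e = ∑ e ∈ (hC.fin i d).toFinset, P rel i d e * f e := by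
    symm
    apply Finset.sum_subset
    · intro e he
      exact hS e ((Set.Finite.mem_toFinset _).1 he)
    · intro e _ he
      rw [P_of_not (fun h => he ((Set.Finite.mem_toFinset _).2 h)), zero_mul]
  rw [h1, div_eq_mul_inv, mul_comm, Finset.mul_sum]
  apply Finset.sum_congr rfl
  intro e he
  rw [P_of_rel ((Set.Finite.mem_toFinset _).1 he : rel i d e)]

open Classical in
/-- extension by zero -/
noncomputable def ex (c : V) (X : RT rel b c → ℝ) (d : V) : ℝ :=
  if h : Rs rel b c d then X ⟨d, h⟩ else 0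

lemma ex_apply (c : V) (X : RT rel b c → ℝ) (x : RT rel b c) : ex c X x.1 = X x := by
  unfold ex
  rw [dif_pos x.2]

lemma ex_const (hC : Ch G rel) {i : I} (hi : b i ≠ 0) (c : V) (X : RT rel b c → ℝ)
    (hX : ∀ x y : RT rel b c, rel i x.1 y.1 → X x = X y) (x y : V) (h : rel i x y) :
    ex c X x = ex c X y := by
  by_cases hx : Rs rel b c x
  · have hy : Rs rel b c y := Rs_trans hx (Rs_of_rel hi h)
    rw [ex_apply c X ⟨x, hx⟩, ex_apply c X ⟨y, hy⟩]
    exact hX _ _ h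
  · have hy : ¬ Rs rel b c y := fun hy =>
      hx (Rs_trans hy (Rs_of_rel hi ((hC.eqv i).symm h)))
    unfold ex
    rw [dif_neg hx, dif_neg hy]

variable [Fintype I]

/-- the average of the extension -/
lemma avV_ex (hC : Ch G rel) (hfin : ∀ c, Finite (RT rel b c)) {i : I} (hi : b i ≠ 0) (c : V)
    (X : RT rel b c → ℝ) (x : RT rel b c) : avV rel i (ex c X) x.1 = Av hfin i c X x := by
  classical
  let _ : Fintype (RT rel b c) := fi hfin c
  have h1 : ∀ d, rel i x.1 d → d ∈ (Finset.univ : Finset (RT rel b c)).image Subtype.val := by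
    intro d hd
    rw [Finset.mem_image]
    exact ⟨⟨d, Rs_trans x.2 (Rs_of_rel hi hd)⟩, Finset.mem_univ _, rfl⟩
  rw [avV_eq hC i x.1 _ h1, Finset.sum_image (fun a _ b _ h => Subtype.ext h)]
  unfold Av
  exact Finset.sum_congr rfl (fun y _ => by rw [ex_apply])

lemma gap_user (hC : Ch G rel) (hfin : ∀ c, Finite (RT rel b c)) {lam : ℝ}
    (h : ∀ (c : V) (f : V → ℝ), ∑ᶠ d ∈ {d | Rs rel b c d}, f d = 0 →
      lam * ∑ᶠ d ∈ {d | Rs rel b c d}, f d ^ 2
        ≤ ∑ i, b i * ∑ᶠ d ∈ {d | Rs rel b c d}, (f d - avV rel i f d) ^ 2) (c : V) :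
    @Gap _ (fi hfin c) (wR rel b c) lam := by
  classical
  let _ : Fintype (RT rel b c) := fi hfin c
  apply gap_of_sq hC hfin c
  intro X hX
  have h1 := h c (ex c X) (by
    rw [fsum_res hfin c]
    rw [← hX]
    exact Finset.sum_congr rfl (fun x _ => ex_apply c X x))
  rw [fsum_res hfin c (fun d => ex c X d ^ 2)] at h1
  have h2 : ∑ x : RT rel b c, ex c X x.1 ^ 2 = ∑ x : RT rel b c, X x ^ 2 :=
    Finset.sum_congr rfl (fun x _ => by rw [ex_apply])
  rw [h2] at h1
  refine h1.trans (le_of_eq ?_)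
  apply Finset.sum_congr rfl
  intro i _
  by_cases hi : b i = 0
  · rw [hi, zero_mul, zero_mul]
  · congr 1
    rw [fsum_res hfin c (fun d => (ex c X d - avV rel i (ex c X) d) ^ 2)]
    exact Finset.sum_congr rfl (fun x _ => by rw [ex_apply, avV_ex hC hfin hi])

lemma angle_user (hC : Ch G rel) (hfin : ∀ c, Finite (RT rel b c)) (c : V) {i j : I}
    (hij : i ≠ j) {β ε : ℝ} (hβ : 0 < β) (hbi : b i = β) (hbj : b j = β)
    (hb : ∀ k, k ≠ i → k ≠ j → b k = 0) (hε : 0 ≤ ε)
    (h : ∀ (f g : V → ℝ), (∀ x y, rel i x y → f x = f y) → (∀ x y, rel j x y → g x = g y) →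
      ∑ᶠ d ∈ {d | Rs rel b c d}, f d = 0 → ∑ᶠ d ∈ {d | Rs rel b c d}, g d = 0 →
      2 * ∑ᶠ d ∈ {d | Rs rel b c d}, f d * g d
        ≤ ε * (∑ᶠ d ∈ {d | Rs rel b c d}, f d ^ 2 + ∑ᶠ d ∈ {d | Rs rel b c d}, g d ^ 2)) :
    @Gap _ (fi hfin c) (wR rel b c) (β * (1 - ε)) := by
  classical
  let _ : Fintype (RT rel b c) := fi hfin c
  have hi0 : b i ≠ 0 := by rw [hbi]; exact hβ.ne'
  have hj0 : b j ≠ 0 := by rw [hbj]; exact hβ.ne'
  apply gap_of_angle hC hfin c hij hβ hbi hbj hb hε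
  intro X Z hX hZ hX0 hZ0
  have h1 := h (ex c X) (ex c Z) (ex_const hC hi0 c X hX) (ex_const hC hj0 c Z hZ)
    (by
      rw [fsum_res hfin c, ← hX0]
      exact Finset.sum_congr rfl (fun x _ => ex_apply c X x))
    (by
      rw [fsum_res hfin c, ← hZ0]
      exact Finset.sum_congr rfl (fun x _ => ex_apply c Z x))
  rw [fsum_res hfin c (fun d => ex c X d * ex c Z d), fsum_res hfin c (fun d => ex c X d ^ 2),
    fsum_res hfin c (fun d => ex c Z d ^ 2)] at h1
  simp only [ex_apply] at h1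
  exact h1

end ANG
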