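import Pool.Agent.ANG.Fin
import Pool.Agent.ANG.Us

/-! # ANG: chamber systems with residues of rank two -/

set_option autoImplicit false

open MulAction LGap

namespace ANG

/-- residues -/
def resid {V I : Type*} (rel : I → V → V → Prop) (J : Set I) (c : V) : Set V :=
  {d | Relation.ReflTransGen (fun a e => ∃ i ∈ J, rel i a e) c d}

lemma resid_eq {V I : Type*} (rel : I → V → V → Prop) {J : Set I} {b : I → ℝ}
    (h : ∀ k, b k ≠ 0 ↔ k ∈ J) (c : V) : {d | Rs rel b c d} = resid rel J c := by
  have h1 : (fun a e => ∃ i, b i ≠ 0 ∧ rel i a e) = (fun a e => ∃ i ∈ J, rel i a e) := by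
    funext a e
    apply propext
    exact ⟨fun ⟨i, hi, hr⟩ => ⟨i, (h i).1 hi, hr⟩, fun ⟨i, hi, hr⟩ => ⟨i, (h i).2 hi, hr⟩⟩
  unfold Rs resid
  rw [h1]

lemma resid_empty {V I : Type*} (rel : I → V → V → Prop) (c : V) :
    resid rel (∅ : Set I) c = {c} := by
  ext d
  constructor
  · intro h
    have h' : Relation.ReflTransGen (fun a e => ∃ i ∈ (∅ : Set I), rel i a e) c d := h
    induction h' with
    | refl => rfl
    | tail _ hbc _ =>
      obtain ⟨i, hi, _⟩ := hbc
      exact absurd hi (Set.notMem_empty i)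
  · intro h
    rw [Set.mem_singleton_iff.1 h]
    exact Relation.ReflTransGen.refl

/-- general finite residues -/
theorem general_main {G V I T : Type*} [Group G] [MulAction G V] [Nonempty V] [Fintype I]
    [Fintype T] {rel : I → V → V → Prop} (hC : Ch G rel)
    (hf : Finite (Ty G V)) (hst : ∀ v : V, Finite (MulAction.stabilizer G v))
    (hconn : ∀ v u : V, Relation.ReflTransGen (fun a b => ∃ i, rel i a b) v u)
    {al : I → ℝ} (hal : ∀ i, 0 < al i) {b : T → I → ℝ} (hb : ∀ t i, 0 ≤ b t i) {lam : T → ℝ}
    (hlam : ∀ t, 0 < lam t) (hfin : ∀ t c, (resid rel {i | b t i ≠ 0} c).Finite)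
    (hgap : ∀ (t : T) (c : V) (f : V → ℝ), ∑ᶠ d ∈ resid rel {i | b t i ≠ 0} c, f d = 0 →
      lam t * ∑ᶠ d ∈ resid rel {i | b t i ≠ 0} c, f d ^ 2
        ≤ ∑ i, b t i * ∑ᶠ d ∈ resid rel {i | b t i ≠ 0} c, (f d - avV rel i f d) ^ 2)
    (hcross : ∀ i j, i ≠ j → ∑ t, b t i * b t j = al i * al j)
    (hdiag : ∀ i, ∑ t, b t i * (b t i - lam t) < al i ^ 2) (K : Subgroup G) [K.FiniteIndex]
    {X : Type*} [LinearOrder X] (ψ : K →* (X ≃o X)) : ψ = 1 := by
  have he : ∀ t c, {d | Rs rel (b t) c d} = resid rel {i | b t i ≠ 0} c := fun t c =>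
    resid_eq rel (fun k => Iff.rfl) c
  have hfin' : ∀ t c, Finite (RT rel (b t) c) := by
    intro t c
    have h1 : {d | Rs rel (b t) c d}.Finite := by rw [he]; exact hfin t c
    exact Set.finite_coe_iff.2 h1
  refine angle_main hC hf hst hconn hal hb hlam hfin' ?_ hcross hdiag K ψ
  intro t c
  refine gap_user hC (hfin' t) ?_ c
  intro c f hf0
  rw [he] at hf0 ⊢
  exact hgap t c f hf0

/-- residues of rank two and a positive definite matrix -/
theorem pairs_main {G V I : Type*} [Group G] [MulAction G V] [Nonempty V] [Fintype I]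
    {rel : I → V → V → Prop} (hC : Ch G rel)
    (hf : Finite (Ty G V)) (hst : ∀ v : V, Finite (MulAction.stabilizer G v))
    (hconn : ∀ v u : V, Relation.ReflTransGen (fun a b => ∃ i, rel i a b) v u)
    {ε : I → I → ℝ} (hs : ∀ i j, ε i j = ε j i) (h0 : ∀ i j, 0 ≤ ε i j)
    (hfin : ∀ i j c, i ≠ j → (resid rel {i, j} c).Finite)
    (hang : ∀ (i j : I) (c : V), i ≠ j → ∀ (f g : V → ℝ),
      (∀ x y, rel i x y → f x = f y) → (∀ x y, rel j x y → g x = g y) →
      ∑ᶠ d ∈ resid rel {i, j} c, f d = 0 → ∑ᶠ d ∈ resid rel {i, j} c, g d = 0 →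
      2 * ∑ᶠ d ∈ resid rel {i, j} c, f d * g d
        ≤ ε i j * (∑ᶠ d ∈ resid rel {i, j} c, f d ^ 2 + ∑ᶠ d ∈ resid rel {i, j} c, g d ^ 2))
    (hpd : ∀ x : I → ℝ, x ≠ 0 →
      ∑ i, ∑ j, (open Classical in if i = j then 0 else ε i j * x i * x j) < ∑ i, x i ^ 2)
    (K : Subgroup G) [K.FiniteIndex]
    {X : Type*} [LinearOrder X] (ψ : K →* (X ≃o X)) : ψ = 1 := by
  classical
  obtain ⟨al, hal, hal'⟩ := exists_alpha ε hs h0 (fun x hx => by
    refine lt_of_le_of_lt (le_of_eq ?_) (hpd x hx)
    exact Finset.sum_congr rfl (fun i _ => Finset.sum_congr rfl (fun j _ => by congr)))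
  have hlt : ∀ i j, i ≠ j → ε i j * al j < al i := by
    intro i j hij
    refine lt_of_le_of_lt ?_ (hal' i)
    have h1 : (if i = j then 0 else ε i j * al j) ≤ ∑ j, (if i = j then 0 else ε i j * al j) :=
      Finset.single_le_sum (f := fun j => if i = j then 0 else ε i j * al j)
        (fun j _ => by
          show (0:ℝ) ≤ if i = j then 0 else ε i j * al j
          split_ifs
          · exact le_rfl
          · exact mul_nonneg (h0 i j) (hal j).le) (Finset.mem_univ j)
    rw [if_neg hij] at h1
    exact h1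
  have hε1 : ∀ i j, i ≠ j → ε i j < 1 := by
    intro i j hij
    by_contra hcon
    push Not at hcon
    have h1 := hlt i j hij
    have h2 := hlt j i (Ne.symm hij)
    rw [hs j i] at h2
    have h3 : al j ≤ ε i j * al j := le_mul_of_one_le_left (hal j).le hcon
    have h4 : al i ≤ ε i j * al i := le_mul_of_one_le_left (hal i).le hcon
    linarith
  set bb : I × I → I → ℝ := fun t k =>
    if t.1 ≠ t.2 ∧ (k = t.1 ∨ k = t.2) then Real.sqrt (al t.1 * al t.2 / 2) else 0 with hbb
  set lam : I × I → ℝ := fun t =>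
    if t.1 ≠ t.2 then Real.sqrt (al t.1 * al t.2 / 2) * (1 - ε t.1 t.2) else 1 with hlamdef
  have hpos : ∀ p q : I, 0 < Real.sqrt (al p * al q / 2) := fun p q =>
    Real.sqrt_pos.2 (by have := mul_pos (hal p) (hal q); linarith)
  have hsq : ∀ p q : I, Real.sqrt (al p * al q / 2) * Real.sqrt (al p * al q / 2)
      = al p * al q / 2 := fun p q =>
    Real.mul_self_sqrt (by have := mul_pos (hal p) (hal q); linarith)
  have hb : ∀ t k, 0 ≤ bb t k := by
    intro t k
    rw [hbb]
    show (0:ℝ) ≤ if _ then _ else _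
    split_ifs
    · exact (hpos _ _).le
    · exact le_rfl
  have hlam : ∀ t, 0 < lam t := by
    intro t
    rw [hlamdef]
    show (0:ℝ) < if _ then _ else _
    split_ifs with h
    · exact mul_pos (hpos _ _) (by linarith [hε1 t.1 t.2 h])
    · exact one_pos
  have hsupp : ∀ t : I × I, t.1 ≠ t.2 → ∀ k, bb t k ≠ 0 ↔ k ∈ ({t.1, t.2} : Set I) := by
    intro t ht k
    rw [Set.mem_insert_iff, Set.mem_singleton_iff]
    constructor
    · intro h
      by_contra hn
      apply h
      show (if t.1 ≠ t.2 ∧ (k = t.1 ∨ k = t.2) then Real.sqrt (al t.1 * al t.2 / 2) else 0) = 0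
      rw [if_neg (fun h' => hn h'.2)]
    · intro h
      show (if t.1 ≠ t.2 ∧ (k = t.1 ∨ k = t.2) then Real.sqrt (al t.1 * al t.2 / 2) else 0) ≠ 0
      rw [if_pos ⟨ht, h⟩]
      exact (hpos _ _).ne'
  have hsupp0 : ∀ t : I × I, t.1 = t.2 → ∀ k, bb t k ≠ 0 ↔ k ∈ (∅ : Set I) := by
    intro t ht k
    constructor
    · intro h
      exfalso
      apply h
      show (if t.1 ≠ t.2 ∧ (k = t.1 ∨ k = t.2) then Real.sqrt (al t.1 * al t.2 / 2) else 0) = 0
      rw [if_neg (fun h' => h'.1 ht)]
    · intro h
      exact absurd h (Set.notMem_empty k)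
  have hfin' : ∀ t c, Finite (RT rel (bb t) c) := by
    intro t c
    have h1 : {d | Rs rel (bb t) c d}.Finite := by
      by_cases ht : t.1 = t.2
      · rw [resid_eq rel (hsupp0 t ht), resid_empty]
        exact Set.finite_singleton c
      · rw [resid_eq rel (hsupp t ht)]
        exact hfin _ _ c ht
    exact Set.finite_coe_iff.2 h1
  have hgap : ∀ t c, @Gap _ (fi (hfin' t) c) (wR rel (bb t) c) (lam t) := by
    intro t c
    by_cases ht : t.1 = t.2
    · let _ : Fintype (RT rel (bb t) c) := fi (hfin' t) c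
      intro X hX
      have hone : ∀ x y : RT rel (bb t) c, x = y := by
        have h1 : ∀ x : RT rel (bb t) c, x.1 = c := by
          intro x
          have h2 : x.1 ∈ {d | Rs rel (bb t) c d} := x.2
          rw [resid_eq rel (hsupp0 t ht), resid_empty] at h2
          exact h2
        intro x y
        exact Subtype.ext ((h1 x).trans (h1 y).symm)
      have hz : ∀ x, X x = 0 := by
        intro x
        have h3 : ∑ y, X y = X x := by
          rw [Finset.sum_eq_single x]
          · intro y _ hy
            exact absurd (hone y x) hy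
          · intro h
            exact absurd (Finset.mem_univ x) h
        rw [← h3, hX]
      have h4 : ∑ x, X x ^ 2 = 0 := Finset.sum_eq_zero (fun x _ => by rw [hz x]; ring)
      have h5 : ∑ x, X x * Dl (wR rel (bb t) c) X x = 0 :=
        Finset.sum_eq_zero (fun x _ => by rw [hz x]; ring)
      rw [h4, h5, mul_zero]
    · have hl : lam t = Real.sqrt (al t.1 * al t.2 / 2) * (1 - ε t.1 t.2) := by
        show (if t.1 ≠ t.2 then Real.sqrt (al t.1 * al t.2 / 2) * (1 - ε t.1 t.2) else 1) = _
        rw [if_pos ht]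
      rw [hl]
      refine angle_user hC (hfin' t) c ht (hpos _ _) ?_ ?_ ?_ (h0 _ _) ?_
      · show (if t.1 ≠ t.2 ∧ (t.1 = t.1 ∨ t.1 = t.2) then _ else 0) = _
        rw [if_pos ⟨ht, Or.inl rfl⟩]
      · show (if t.1 ≠ t.2 ∧ (t.2 = t.1 ∨ t.2 = t.2) then _ else 0) = _
        rw [if_pos ⟨ht, Or.inr rfl⟩]
      · intro k h1 h2
        show (if t.1 ≠ t.2 ∧ (k = t.1 ∨ k = t.2) then _ else 0) = 0
        rw [if_neg]
        rintro ⟨_, h | h⟩
        · exact h1 h
        · exact h2 h
      · intro f g hf' hg' hf0 hg0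
        rw [resid_eq rel (hsupp t ht)] at hf0 hg0 ⊢
        exact hang t.1 t.2 c ht f g hf' hg' hf0 hg0
  refine angle_main hC hf hst hconn hal hb hlam hfin' hgap ?_ ?_ K ψ
  · intro i j hij
    have h1 : ∀ t : I × I, bb t i * bb t j
        = (if t = (i, j) then al i * al j / 2 else 0) + (if t = (j, i) then al i * al j / 2 else 0) := by
      rintro ⟨p, q⟩
      show (if p ≠ q ∧ (i = p ∨ i = q) then Real.sqrt (al p * al q / 2) else 0)
        * (if p ≠ q ∧ (j = p ∨ j = q) then Real.sqrt (al p * al q / 2) else 0) = _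
      by_cases hpi : p = i
      · subst hpi
        by_cases hqj : q = j
        · subst hqj
          rw [if_pos ⟨hij, Or.inl rfl⟩, if_pos ⟨hij, Or.inr rfl⟩, if_pos rfl,
            if_neg (fun h => hij (Prod.ext_iff.1 h).1), hsq]
          ring
        · have a1 : ¬ (p ≠ q ∧ (j = p ∨ j = q)) := by
            rintro ⟨_, h | h⟩
            · exact hij h.symm
            · exact hqj h.symm
          have a2 : ¬ (p, q) = (p, j) := fun h => hqj (Prod.ext_iff.1 h).2
          have a3 : ¬ (p, q) = (j, p) := fun h => hij (Prod.ext_iff.1 h).1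
          rw [if_neg a1, if_neg a2, if_neg a3]
          ring
      · by_cases hqi : q = i
        · subst hqi
          by_cases hpj : p = j
          · subst hpj
            rw [if_pos ⟨hpi, Or.inr rfl⟩, if_pos ⟨hpi, Or.inl rfl⟩,
              if_neg (fun h => hpi (Prod.ext_iff.1 h).1), if_pos rfl, hsq]
            ring
          · have a1 : ¬ (p ≠ q ∧ (j = p ∨ j = q)) := by
              rintro ⟨_, h | h⟩
              · exact hpj h.symm
              · exact hij h.symm
            have a2 : ¬ (p, q) = (q, j) := fun h => hpi (Prod.ext_iff.1 h).1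
            have a3 : ¬ (p, q) = (j, q) := fun h => hpj (Prod.ext_iff.1 h).1
            rw [if_neg a1, if_neg a2, if_neg a3]
            ring
        · have a1 : ¬ (p ≠ q ∧ (i = p ∨ i = q)) := by
            rintro ⟨_, h | h⟩
            · exact hpi h.symm
            · exact hqi h.symm
          have a2 : ¬ (p, q) = (i, j) := fun h => hpi (Prod.ext_iff.1 h).1
          have a3 : ¬ (p, q) = (j, i) := fun h => hqi (Prod.ext_iff.1 h).2
          rw [if_neg a1, if_neg a2, if_neg a3]
          ring
    rw [Finset.sum_congr rfl (fun t _ => h1 t), Finset.sum_add_distrib, Finset.sum_ite_eq',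
      Finset.sum_ite_eq', if_pos (Finset.mem_univ _), if_pos (Finset.mem_univ _)]
    ring
  · intro i
    have h1 : ∀ t : I × I, bb t i * (bb t i - lam t)
        = (if i = t.2 then 0 else (if t.1 = i then al i * (ε i t.2 * al t.2) / 2 else 0))
          + (if i = t.1 then 0 else (if t.2 = i then al i * (ε i t.1 * al t.1) / 2 else 0)) := by
      rintro ⟨p, q⟩
      show (if p ≠ q ∧ (i = p ∨ i = q) then Real.sqrt (al p * al q / 2) else 0)
        * ((if p ≠ q ∧ (i = p ∨ i = q) then Real.sqrt (al p * al q / 2) else 0)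
          - (if p ≠ q then Real.sqrt (al p * al q / 2) * (1 - ε p q) else 1))
        = (if i = q then 0 else (if p = i then al i * (ε i q * al q) / 2 else 0))
          + (if i = p then 0 else (if q = i then al i * (ε i p * al p) / 2 else 0))
      by_cases hpq : p = q
      · subst hpq
        rw [if_neg (fun h => h.1 rfl), zero_mul]
        by_cases hip : i = p
        · rw [if_pos hip, add_zero]
        · have hip' : ¬ p = i := fun h => hip h.symm
          simp only [if_neg hip, if_neg hip', add_zero]
      · by_cases hip : i = p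
        · subst hip
          rw [if_pos ⟨hpq, Or.inl rfl⟩, if_pos hpq, if_neg hpq, if_pos rfl, if_pos rfl]
          have := hsq i q
          linear_combination ε i q * this
        · by_cases hiq : i = q
          · subst hiq
            rw [if_pos ⟨hpq, Or.inr rfl⟩, if_pos hpq, if_pos rfl, if_neg hip, if_pos rfl, hs i p]
            have := hsq p i
            linear_combination ε p i * this
          · have a1 : ¬ (p ≠ q ∧ (i = p ∨ i = q)) := by
              rintro ⟨_, h | h⟩
              · exact hip h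
              · exact hiq h
            have hip' : ¬ p = i := fun h => hip h.symm
            have hiq' : ¬ q = i := fun h => hiq h.symm
            simp only [if_neg a1, if_neg hip, if_neg hiq, if_neg hip', if_neg hiq']
            ring
    rw [Finset.sum_congr rfl (fun t _ => h1 t), Finset.sum_add_distrib,
      Fintype.sum_prod_type, Fintype.sum_prod_type]
    have e1 : ∑ p : I, ∑ q : I, (if i = q then 0 else (if p = i then al i * (ε i q * al q) / 2 else 0))
        = al i / 2 * ∑ q, (if i = q then 0 else ε i q * al q) := by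
      rw [Finset.sum_comm, Finset.mul_sum]
      apply Finset.sum_congr rfl
      intro q _
      by_cases h : i = q
      · simp only [if_pos h, Finset.sum_const_zero, mul_zero]
      · simp only [if_neg h, Finset.sum_ite_eq', Finset.mem_univ, if_true]
        ring
    have e2 : ∑ p : I, ∑ q : I, (if i = p then 0 else (if q = i then al i * (ε i p * al p) / 2 else 0))
        = al i / 2 * ∑ q, (if i = q then 0 else ε i q * al q) := by
      rw [Finset.mul_sum]
      apply Finset.sum_congr rfl
      intro p _
      by_cases h : i = p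
      · simp only [if_pos h, Finset.sum_const_zero, mul_zero]
      · simp only [if_neg h, Finset.sum_ite_eq', Finset.mem_univ, if_true]
        ring
    show ∑ p : I, ∑ q : I, (if i = q then 0 else (if p = i then al i * (ε i q * al q) / 2 else 0))
      + ∑ p : I, ∑ q : I, (if i = p then 0 else (if q = i then al i * (ε i p * al p) / 2 else 0)) < _
    rw [e1, e2]
    have h2 := mul_lt_mul_of_pos_left (hal' i) (hal i)
    have h3 : al i ^ 2 = al i * al i := sq (al i)
    rw [h3]
    linarith

end ANG
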