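import Pool.Agent.ANG.Sgm

/-! # ANG: the tensor of the residues of one type -/

set_option autoImplicit false

namespace ANG

variable {G V I : Type*} [Group G] [MulAction G V] [Fintype I] {rel : I → V → V → Prop}
  {b : I → ℝ}

/-- the residue of `c` as a type -/
abbrev RT (rel : I → V → V → Prop) (b : I → ℝ) (c : V) : Type _ := {d : V // Rs rel b c d}

/-- the residues are finite types -/
@[reducible] noncomputable def fi (hfin : ∀ c, Finite (RT rel b c)) (c : V) : Fintype (RT rel b c) :=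
  @Fintype.ofFinite _ (hfin c)

/-- the weights on a residue -/
noncomputable def wR (rel : I → V → V → Prop) (b : I → ℝ) (c : V) (x y : RT rel b c) : ℝ :=
  W rel b x.1 y.1

/-- the canonical potential of a residue -/
noncomputable def thR (hfin : ∀ c, Finite (RT rel b c)) (r : ℝ) (v : V) (c x y : RT rel b v) : ℝ :=
  @th _ (fi hfin v) (wR rel b v) r c x y

open Classical in
/-- the tensor of the residues -/
noncomputable def phi (hfin : ∀ c, Finite (RT rel b c)) (r : ℝ) (v x y : V) : ℝ :=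
  if h : Rs rel b v x ∧ Rs rel b v y then
    thR hfin r v ⟨v, Rs_refl rel b v⟩ ⟨x, h.1⟩ ⟨y, h.2⟩ else 0

lemma wR_symm (hC : Ch G rel) (c : V) (x y : RT rel b c) : wR rel b c x y = wR rel b c y x :=
  W_symm hC b _ _

/-- two chambers of the same residue -/
def eqB (hC : Ch G rel) {v v' : V} (h : Rs rel b v v') : RT rel b v ≃ RT rel b v' where
  toFun x := ⟨x.1, Rs_trans (Rs_symm hC h) x.2⟩
  invFun x := ⟨x.1, Rs_trans h x.2⟩
  left_inv _ := rfl
  right_inv _ := rfl

/-- translation of residues -/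
def eqG (hC : Ch G rel) (g : G) (v : V) : RT rel b v ≃ RT rel b (g • v) where
  toFun x := ⟨g • x.1, Rs_smul hC g x.2⟩
  invFun x := ⟨g⁻¹ • x.1, by
    have h := Rs_smul hC g⁻¹ x.2
    rwa [inv_smul_smul] at h⟩
  left_inv x := by
    apply Subtype.ext
    exact inv_smul_smul g x.1
  right_inv x := by
    apply Subtype.ext
    exact smul_inv_smul g x.1

lemma thR_base (hC : Ch G rel) (hfin : ∀ c, Finite (RT rel b c)) {lam r : ℝ}
    (hgap : ∀ c, @Gap _ (fi hfin c) (wR rel b c) lam) (hr : 2 * r < 3 * lam) {v v' : V}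
    (h : Rs rel b v v') (c x y : RT rel b v) :
    thR hfin r v' (eqB hC h c) (eqB hC h x) (eqB hC h y) = thR hfin r v c x y := by
  unfold thR
  exact @th_equiv _ (fi hfin v) _ _ (fi hfin v') _ (wR_symm hC v) lam r (hgap v) hr (eqB hC h)
    (fun _ _ => rfl) c x y

lemma thR_smul (hC : Ch G rel) (hfin : ∀ c, Finite (RT rel b c)) {lam r : ℝ}
    (hgap : ∀ c, @Gap _ (fi hfin c) (wR rel b c) lam) (hr : 2 * r < 3 * lam) (g : G) (v : V)
    (c x y : RT rel b v) :
    thR hfin r (g • v) (eqG hC g v c) (eqG hC g v x) (eqG hC g v y) = thR hfin r v c x y := by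
  unfold thR
  exact @th_equiv _ (fi hfin v) _ _ (fi hfin (g • v)) _ (wR_symm hC v) lam r (hgap v) hr
    (eqG hC g v) (fun c d => W_smul hC b g c.1 d.1) c x y

lemma thR_s0 (hC : Ch G rel) (hfin : ∀ c, Finite (RT rel b c)) {lam r : ℝ}
    (hgap : ∀ c, @Gap _ (fi hfin c) (wR rel b c) lam) (hr : 2 * r < 3 * lam) (v : V) :
    @S0 _ (fi hfin v) (thR hfin r v) := by
  unfold thR
  exact (@th_spec _ (fi hfin v) _ (wR_symm hC v) lam r (hgap v) hr).1

lemma phi_of (hfin : ∀ c, Finite (RT rel b c)) (r : ℝ) {v x y : V} (hx : Rs rel b v x)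
    (hy : Rs rel b v y) :
    phi hfin r v x y = thR hfin r v ⟨v, Rs_refl rel b v⟩ ⟨x, hx⟩ ⟨y, hy⟩ := by
  unfold phi
  rw [dif_pos ⟨hx, hy⟩]

lemma phi_of_not (hfin : ∀ c, Finite (RT rel b c)) (r : ℝ) {v x y : V}
    (h : ¬ (Rs rel b v x ∧ Rs rel b v y)) : phi hfin r v x y = 0 := by
  unfold phi
  rw [dif_neg h]

lemma phi_support (hfin : ∀ c, Finite (RT rel b c)) (r : ℝ) {v x y : V}
    (h : phi hfin r v x y ≠ 0) : Rs rel b v x ∧ Rs rel b v y := by
  by_contra hn
  exact h (phi_of_not hfin r hn)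

lemma phi_swap12 (hC : Ch G rel) (hfin : ∀ c, Finite (RT rel b c)) {lam r : ℝ}
    (hgap : ∀ c, @Gap _ (fi hfin c) (wR rel b c) lam) (hr : 2 * r < 3 * lam) (v x y : V) :
    phi hfin r v x y = phi hfin r x v y := by
  by_cases h : Rs rel b v x ∧ Rs rel b v y
  · obtain ⟨hx, hy⟩ := h
    have hxv : Rs rel b x v := Rs_symm hC hx
    have hxy : Rs rel b x y := Rs_trans hxv hy
    rw [phi_of hfin r hx hy, phi_of hfin r hxv hxy]
    rw [← thR_base hC hfin hgap hr hx]
    let _ : Fintype (RT rel b x) := fi hfin x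
    exact (thR_s0 hC hfin hgap hr x).s12 _ _ _
  · rw [phi_of_not hfin r h, phi_of_not]
    rintro ⟨h1, h2⟩
    exact h ⟨Rs_symm hC h1, Rs_trans (Rs_symm hC h1) h2⟩

lemma phi_swap23 (hC : Ch G rel) (hfin : ∀ c, Finite (RT rel b c)) {lam r : ℝ}
    (hgap : ∀ c, @Gap _ (fi hfin c) (wR rel b c) lam) (hr : 2 * r < 3 * lam) (v x y : V) :
    phi hfin r v x y = phi hfin r v y x := by
  by_cases h : Rs rel b v x ∧ Rs rel b v y
  · obtain ⟨hx, hy⟩ := h
    rw [phi_of hfin r hx hy, phi_of hfin r hy hx]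
    let _ : Fintype (RT rel b v) := fi hfin v
    exact (thR_s0 hC hfin hgap hr v).s23 _ _ _
  · rw [phi_of_not hfin r h, phi_of_not]
    rintro ⟨h1, h2⟩
    exact h ⟨h2, h1⟩

lemma phi_smul (hC : Ch G rel) (hfin : ∀ c, Finite (RT rel b c)) {lam r : ℝ}
    (hgap : ∀ c, @Gap _ (fi hfin c) (wR rel b c) lam) (hr : 2 * r < 3 * lam) (g : G) (v x y : V) :
    phi hfin r (g • v) (g • x) (g • y) = phi hfin r v x y := by
  by_cases h : Rs rel b v x ∧ Rs rel b v y
  · obtain ⟨hx, hy⟩ := h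
    rw [phi_of hfin r hx hy, phi_of hfin r (Rs_smul hC g hx) (Rs_smul hC g hy),
      ← thR_smul hC hfin hgap hr g v]
    rfl
  · rw [phi_of_not hfin r h, phi_of_not]
    rintro ⟨h1, h2⟩
    exact h ⟨(Rs_smul_iff hC g).1 h1, (Rs_smul_iff hC g).1 h2⟩

/-- sums over a residue -/
lemma sum_res (hfin : ∀ c, Finite (RT rel b c)) (v : V) (S : Finset V)
    (hS : ∀ d, Rs rel b v d → d ∈ S) (g : V → ℝ) (hg : ∀ d, ¬ Rs rel b v d → g d = 0) :
    ∑ d ∈ S, g d = @Finset.sum _ _ _ (@Finset.univ _ (fi hfin v)) (fun x : RT rel b v => g x.1) := by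
  classical
  let _ : Fintype (RT rel b v) := fi hfin v
  have h1 : ∑ d ∈ S, g d = ∑ d ∈ S.filter (fun d => Rs rel b v d), g d := by
    symm
    apply Finset.sum_subset (Finset.filter_subset _ _)
    intro d hd hd'
    apply hg
    intro h
    exact hd' (Finset.mem_filter.2 ⟨hd, h⟩)
  rw [h1]
  exact Finset.sum_subtype (p := fun d => Rs rel b v d) (S.filter (fun d => Rs rel b v d))
    (fun x => by
      rw [Finset.mem_filter]
      exact ⟨fun h => h.2, fun h => ⟨hS x h, h⟩⟩) g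

lemma phi_mg (hC : Ch G rel) (hfin : ∀ c, Finite (RT rel b c)) {lam r : ℝ}
    (hgap : ∀ c, @Gap _ (fi hfin c) (wR rel b c) lam) (hr : 2 * r < 3 * lam) (v x : V)
    (S : Finset V) (hS : ∀ d, Rs rel b v d → d ∈ S) : ∑ y ∈ S, phi hfin r v x y = 0 := by
  by_cases hx : Rs rel b v x
  · rw [sum_res hfin v S hS (fun y => phi hfin r v x y)
      (fun d hd => phi_of_not hfin r (fun h => hd h.2))]
    let _ : Fintype (RT rel b v) := fi hfin v
    have h1 := (thR_s0 hC hfin hgap hr v).mg ⟨v, Rs_refl rel b v⟩ ⟨x, hx⟩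
    rw [← h1]
    apply Finset.sum_congr rfl
    intro y _
    exact phi_of hfin r hx y.2
  · apply Finset.sum_eq_zero
    intro y _
    exact phi_of_not hfin r (fun h => hx h.1)

lemma W_zero_of_not {v d : V} (h : ¬ Rs rel b v d) : W rel b v d = 0 := by
  unfold W
  apply Finset.sum_eq_zero
  intro i _
  by_cases hb : b i = 0
  · rw [hb, zero_mul]
  · rw [P_of_not (fun h' => h (Rs_of_rel hb h')), mul_zero]

/-- the local inequality at a chamber -/
theorem phi_ineq (hC : Ch G rel) (hb : ∀ i, 0 ≤ b i) (hfin : ∀ c, Finite (RT rel b c))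
    {lam r : ℝ} (hgap : ∀ c, @Gap _ (fi hfin c) (wR rel b c) lam) (hr0 : 0 ≤ r) (hr : r < lam)
    (v : V) (S : Finset V) (hS : ∀ d, Rs rel b v d → d ∈ S) (f : V → ℝ) :
    0 ≤ (∑ d ∈ S, W rel b v d * (f v - f d)) ^ 2
      - r * (1 / 2 * ∑ d ∈ S, W rel b v d * (f d - f v) ^ 2)
      + ∑ x ∈ S, ∑ y ∈ S, phi hfin r v x y * (f x * f y) := by
  let _ : Fintype (RT rel b v) := fi hfin v
  have h1 : ∑ d ∈ S, W rel b v d * (f v - f d)
      = Dl (wR rel b v) (fun x : RT rel b v => f x.1) ⟨v, Rs_refl rel b v⟩ := by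
    rw [sum_res hfin v S hS (fun d => W rel b v d * (f v - f d))
      (fun d hd => by rw [W_zero_of_not hd, zero_mul])]
    rfl
  have h2 : 1 / 2 * ∑ d ∈ S, W rel b v d * (f d - f v) ^ 2
      = Gm (wR rel b v) (fun x : RT rel b v => f x.1) (fun x : RT rel b v => f x.1)
        ⟨v, Rs_refl rel b v⟩ := by
    rw [sum_res hfin v S hS (fun d => W rel b v d * (f d - f v) ^ 2)
      (fun d hd => by rw [W_zero_of_not hd, zero_mul])]
    unfold Gm
    congr 1
    apply Finset.sum_congr rfl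
    intro d _
    rw [sq]
    rfl
  have h3 : ∑ x ∈ S, ∑ y ∈ S, phi hfin r v x y * (f x * f y)
      = Q (thR hfin r v) ⟨v, Rs_refl rel b v⟩ (fun x : RT rel b v => f x.1)
        (fun x : RT rel b v => f x.1) := by
    rw [sum_res hfin v S hS (fun x => ∑ y ∈ S, phi hfin r v x y * (f x * f y))
      (fun d hd => Finset.sum_eq_zero (fun y _ => by
        rw [phi_of_not hfin r (fun h => hd h.1), zero_mul]))]
    unfold Q
    apply Finset.sum_congr rfl
    intro x _
    rw [sum_res hfin v S hS (fun y => phi hfin r v x.1 y * (f x.1 * f y))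
      (fun d hd => by rw [phi_of_not hfin r (fun h => hd h.2), zero_mul])]
    apply Finset.sum_congr rfl
    intro y _
    rw [phi_of hfin r x.2 y.2]
  rw [h1, h2, h3]
  exact local_ineq (fun c d => W_nonneg rel hb _ _) (wR_symm hC v) (hgap v) hr0 hr _ _

end ANG
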