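import Pool.Agent.ANG.Ch

/-! # ANG: the exact tensor `U_i² - Γ_i` -/

set_option autoImplicit false

namespace ANG

variable {G V I : Type*} [Group G] [MulAction G V] {rel : I → V → V → Prop}

open Classical in
/-- the tensor of `U_i² - Γ_i` -/
noncomputable def sgi (rel : I → V → V → Prop) (i : I) (v x y : V) : ℝ :=
  1 / 2 * ((if v = x then (if v = y then 1 else 0) else 0) - (if v = x then P rel i v y else 0)
    - (if v = y then P rel i v x else 0) - (if x = y then P rel i v x else 0)
    + 2 * (P rel i v x * P rel i v y))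

lemma sgi_swap12 (hC : Ch G rel) (i : I) (v x y : V) : sgi rel i v x y = sgi rel i x v y := by
  classical
  have h5 : P rel i v x * P rel i v y = P rel i x v * P rel i x y := by
    by_cases h : rel i v x
    · rw [P_symm hC i x v, P_trans hC h y]
    · rw [P_of_not h, P_of_not (fun h' => h ((hC.eqv i).symm h'))]
      ring
  unfold sgi
  rw [h5]
  by_cases h1 : v = x
  · subst h1
    rfl
  · have h1' : ¬ x = v := fun h => h1 h.symm
    rw [if_neg h1, if_neg h1, if_neg h1', if_neg h1', P_symm hC i x v]
    ring

lemma sgi_swap23 (i : I) (v x y : V) : sgi rel i v x y = sgi rel i v y x := by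
  classical
  unfold sgi
  by_cases h1 : v = x <;> by_cases h2 : v = y <;> by_cases h3 : x = y
  · subst h1; subst h2; rfl
  · exact absurd (h1.symm.trans h2) h3
  · exact absurd (h1.trans h3) h2
  · have h3' : ¬ y = x := fun h => h3 h.symm
    simp only [if_pos h1, if_neg h2, if_neg h3, if_neg h3']
    ring
  · exact absurd (h2.trans h3.symm) h1
  · have h3' : ¬ y = x := fun h => h3 h.symm
    simp only [if_pos h2, if_neg h1, if_neg h3, if_neg h3']
    ring
  · subst h3; rfl
  · have h3' : ¬ y = x := fun h => h3 h.symm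
    simp only [if_neg h1, if_neg h2, if_neg h3, if_neg h3']
    ring

lemma sgi_smul (hC : Ch G rel) (i : I) (g : G) (v x y : V) :
    sgi rel i (g • v) (g • x) (g • y) = sgi rel i v x y := by
  classical
  unfold sgi
  rw [P_smul hC, P_smul hC]
  have e : ∀ a b : V, (g • a = g • b) = (a = b) := fun a b => propext (smul_left_cancel_iff g)
  simp only [e]

lemma sgi_support (hC : Ch G rel) {i : I} {v x y : V} (h : sgi rel i v x y ≠ 0) :
    rel i v x ∧ rel i v y := by
  classical
  by_contra hn
  apply h
  unfold sgi
  by_cases hx : rel i v x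
  · have hy : ¬ rel i v y := fun hy => hn ⟨hx, hy⟩
    have h1 : ¬ v = y := fun h => hy (h ▸ (hC.eqv i).refl v)
    have h2 : ¬ x = y := fun h => hy (h ▸ hx)
    simp only [P_of_not hy, if_neg h1, if_neg h2, ite_self]
    ring
  · have h1 : ¬ v = x := fun h => hx (h ▸ (hC.eqv i).refl v)
    simp only [P_of_not hx, if_neg h1, ite_self]
    ring

lemma sgi_mg (hC : Ch G rel) (i : I) (v x : V) (S : Finset V) (hS : ∀ d, rel i v d → d ∈ S) :
    ∑ y ∈ S, sgi rel i v x y = 0 := by
  classical
  unfold sgi
  have hv : v ∈ S := hS v ((hC.eqv i).refl v)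
  rw [← Finset.mul_sum]
  simp only [Finset.sum_add_distrib, Finset.sum_sub_distrib]
  have h1 : ∑ y ∈ S, (if v = x then (if v = y then (1 : ℝ) else 0) else 0)
      = if v = x then 1 else 0 := by
    by_cases h : v = x
    · simp only [if_pos h, Finset.sum_ite_eq, if_pos hv]
    · simp only [if_neg h, Finset.sum_const_zero]
  have h2 : ∑ y ∈ S, (if v = x then P rel i v y else 0) = if v = x then 1 else 0 := by
    by_cases h : v = x
    · simp only [if_pos h, P_sum hC i v S hS]
    · simp only [if_neg h, Finset.sum_const_zero]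
  have h3 : ∑ y ∈ S, (if v = y then P rel i v x else 0) = P rel i v x := by
    rw [Finset.sum_ite_eq, if_pos hv]
  have h4 : ∑ y ∈ S, (if x = y then P rel i v x else 0) = P rel i v x := by
    rw [Finset.sum_ite_eq]
    by_cases h : x ∈ S
    · rw [if_pos h]
    · rw [if_neg h, P_of_not (fun h' => h (hS x h'))]
  have h5 : ∑ y ∈ S, 2 * (P rel i v x * P rel i v y) = 2 * P rel i v x := by
    rw [← Finset.mul_sum, ← Finset.mul_sum, P_sum hC i v S hS, mul_one]
  rw [h1, h2, h3, h4, h5]
  ring

/-- `U_i² = Γ_i + (exact)` -/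
lemma sgi_form (hC : Ch G rel) (i : I) (v : V) (S : Finset V) (hS : ∀ d, rel i v d → d ∈ S)
    (f : V → ℝ) :
    (∑ d ∈ S, P rel i v d * (f v - f d)) ^ 2
      = 1 / 2 * ∑ d ∈ S, P rel i v d * (f d - f v) ^ 2
        + ∑ x ∈ S, ∑ y ∈ S, sgi rel i v x y * (f x * f y) := by
  classical
  have hv : v ∈ S := hS v ((hC.eqv i).refl v)
  set A : ℝ := ∑ d ∈ S, P rel i v d * f d with hA
  set B : ℝ := ∑ d ∈ S, P rel i v d * f d ^ 2 with hB
  have hs := P_sum hC i v S hS
  have h1 : ∑ d ∈ S, P rel i v d * (f v - f d) = f v - A := by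
    have : ∀ d, P rel i v d * (f v - f d) = P rel i v d * f v - P rel i v d * f d := fun d => by
      ring
    rw [Finset.sum_congr rfl (fun d _ => this d), Finset.sum_sub_distrib, ← Finset.sum_mul, hs,
      one_mul]
  have h2 : ∑ d ∈ S, P rel i v d * (f d - f v) ^ 2 = B - 2 * f v * A + f v ^ 2 := by
    have : ∀ d, P rel i v d * (f d - f v) ^ 2 = P rel i v d * f d ^ 2
        - 2 * f v * (P rel i v d * f d) + P rel i v d * f v ^ 2 := fun d => by ring
    rw [Finset.sum_congr rfl (fun d _ => this d), Finset.sum_add_distrib, Finset.sum_sub_distrib,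
      ← Finset.sum_mul, hs, ← Finset.mul_sum, one_mul]
  have h3 : ∑ x ∈ S, ∑ y ∈ S, sgi rel i v x y * (f x * f y)
      = 1 / 2 * (f v ^ 2 - f v * A - f v * A - B + 2 * A ^ 2) := by
    have e : ∀ x y, sgi rel i v x y * (f x * f y)
        = 1 / 2 * ((if v = x then (if v = y then f x * f y else 0) else 0)
          - (if v = x then P rel i v y * (f x * f y) else 0)
          - (if v = y then P rel i v x * (f x * f y) else 0)
          - (if x = y then P rel i v x * (f x * f y) else 0)
          + 2 * (P rel i v x * f x * (P rel i v y * f y))) := by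
      intro x y
      unfold sgi
      split_ifs <;> ring
    simp only [e]
    simp only [← Finset.mul_sum]
    simp only [Finset.sum_add_distrib, Finset.sum_sub_distrib]
    congr 1
    have g1 : ∑ x ∈ S, ∑ y ∈ S, (if v = x then (if v = y then f x * f y else 0) else 0)
        = f v ^ 2 := by
      have : ∀ x ∈ S, ∑ y ∈ S, (if v = x then (if v = y then f x * f y else 0) else 0)
          = if v = x then f x * f v else 0 := by
        intro x _
        by_cases h : v = x
        · simp only [if_pos h, Finset.sum_ite_eq, if_pos hv]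
        · simp only [if_neg h, Finset.sum_const_zero]
      rw [Finset.sum_congr rfl this, Finset.sum_ite_eq, if_pos hv]
      ring
    have g2 : ∑ x ∈ S, ∑ y ∈ S, (if v = x then P rel i v y * (f x * f y) else 0) = f v * A := by
      have : ∀ x ∈ S, ∑ y ∈ S, (if v = x then P rel i v y * (f x * f y) else 0)
          = if v = x then f x * A else 0 := by
        intro x _
        by_cases h : v = x
        · simp only [if_pos h]
          rw [hA, Finset.mul_sum]
          exact Finset.sum_congr rfl (fun y _ => by ring)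
        · simp only [if_neg h, Finset.sum_const_zero]
      rw [Finset.sum_congr rfl this, Finset.sum_ite_eq, if_pos hv]
    have g3 : ∑ x ∈ S, ∑ y ∈ S, (if v = y then P rel i v x * (f x * f y) else 0) = f v * A := by
      have : ∀ x ∈ S, ∑ y ∈ S, (if v = y then P rel i v x * (f x * f y) else 0)
          = f v * (P rel i v x * f x) := by
        intro x _
        rw [Finset.sum_ite_eq, if_pos hv]
        ring
      rw [Finset.sum_congr rfl this, ← Finset.mul_sum]
    have g4 : ∑ x ∈ S, ∑ y ∈ S, (if x = y then P rel i v x * (f x * f y) else 0) = B := by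
      apply Finset.sum_congr rfl
      intro x hx
      rw [Finset.sum_ite_eq, if_pos hx]
      ring
    have g5 : ∑ x ∈ S, ∑ y ∈ S, 2 * (P rel i v x * f x * (P rel i v y * f y)) = 2 * A ^ 2 := by
      have : ∀ x ∈ S, ∑ y ∈ S, 2 * (P rel i v x * f x * (P rel i v y * f y))
          = 2 * A * (P rel i v x * f x) := by
        intro x _
        rw [← Finset.mul_sum, ← Finset.mul_sum, ← hA]
        ring
      rw [Finset.sum_congr rfl this, ← Finset.mul_sum, ← hA]
      ring
    rw [g1, g2, g3, g4, g5]
  rw [h1, h2, h3]
  ring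

end ANG
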